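import Pool.Agent.Lib.MP_69ab1c_al_ko.Rep

/-!
The tensor identity and the chain of the Koszul complex.
-/

namespace Pool.Agent.KosInd

open Submodule

universe u

/-- restriction of a representation to a subgroup -/
def resRep {k : Type*} [Field k] {G : Type*} [Group G] (P : Subgroup G) {V : Type*}
    [AddCommGroup V] [Module k V] (τ : Representation k G V) : Representation k P V :=
  τ.comp P.subtype

section

variable {k : Type u} [Field k] {G : Type u} [Group G] {P : Subgroup G}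
    {O : ∀ j, Subalgebra k (G × (Fin j → P) → k)} {OG : Subalgebra k (G → k)}
    {OP : Subalgebra k (P → k)} {V : Type u} [AddCommGroup V] [Module k V]
    {τ : Representation k G V}

theorem RegStr.ratP (R : RegStr P O OG OP) (hτ : RatRep OG τ) : RatRep OP (resRep P τ) :=
  fun l v => R.res _ (hτ l v)

theorem twist_dHoch (b j : ℕ) (c : G × (Fin j → P) → V → (V [⋀^Fin b]→ₗ[k] k)) (X : V) :
    dHoch P (altRep (resRep P τ) b) j (fun z => c z (τ z.1⁻¹ X)) =
      fun z => dHoch P (kosRep (resRep P τ) b) j c z (τ z.1⁻¹ X) := by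
  funext z
  simp only [dHoch, Pi.add_apply, Finset.sum_apply, Pi.smul_apply]
  congr 1
  show (c _ (τ (z.1 * (z.2 0 : G))⁻¹ X)).compLinearMap _ =
    (c _ (τ ((z.2 0 : P)⁻¹ : P) (τ z.1⁻¹ X))).compLinearMap _
  have h : τ (z.1 * (z.2 0 : G))⁻¹ X = τ ((z.2 0 : P)⁻¹ : P) (τ z.1⁻¹ X) := by
    rw [mul_inv_rev, map_mul]
    rfl
  rw [h]

variable [FiniteDimensional k V]

theorem RZero.tensor (R : RegStr P O OG OP) (hτ : RatRep OG τ) {n : Submodule k V} {a b i : ℕ}
    (h : RZero P (altRep (resRep P τ) b) O (altVan n b) i) :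
    RZero P (kosRep (resRep P τ) b) O (kos n a b) i := by
  intro c hc hdc
  have h1 : ∀ X : V, (fun z => c z (τ z.1⁻¹ X)) ∈ regMaps (O (i + 1)) (altVan n b) := by
    intro X
    refine span_induction (p := fun c _ => (fun z => c z (τ z.1⁻¹ X)) ∈
      regMaps (O (i + 1)) (altVan n b)) ?_ ?_ ?_ ?_ hc
    · rintro _ ⟨g, hg, Φ, hΦ, rfl⟩
      refine span_induction (p := fun Φ _ => (fun z : G × (Fin (i + 1) → P) =>
        (g z • Φ) (τ z.1⁻¹ X)) ∈ regMaps (O (i + 1)) (altVan n b)) ?_ ?_ ?_ ?_ hΦ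
      · rintro _ ⟨f, hf, ω, hω, rfl⟩
        have : (fun z : G × (Fin (i + 1) → P) => (g z • fun X => f X • ω) (τ z.1⁻¹ X)) =
            fun z => (g * fun z : G × (Fin (i + 1) → P) => f (τ z.1⁻¹ X)) z • ω := by
          funext z
          simp only [Pi.smul_apply, Pi.mul_apply, mul_smul]
        rw [this]
        exact smul_mem_regMaps ((O (i + 1)).mul_mem hg
          (R.fst _ _ (symDual_point R.inv hτ hf X))) hω
      · simp only [smul_zero, Pi.zero_apply]
        exact zero_mem _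
      · intro Φ Ψ _ _ h1 h2
        simp only [smul_add, Pi.add_apply]
        exact add_mem h1 h2
      · intro r Φ _ h1
        have : (fun z : G × (Fin (i + 1) → P) => (g z • r • Φ) (τ z.1⁻¹ X)) =
            r • fun z : G × (Fin (i + 1) → P) => (g z • Φ) (τ z.1⁻¹ X) := by
          funext z
          simp only [Pi.smul_apply, smul_comm r]
        rw [this]
        exact smul_mem _ r h1
    · exact zero_mem _
    · intro c d _ _ h1 h2
      exact add_mem h1 h2
    · intro r c _ h1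
      exact smul_mem _ r h1
  have h2 : ∀ X : V, ∃ b' ∈ regMaps (O i) (altVan n b),
      dHoch P (altRep (resRep P τ) b) i b' = fun z => c z (τ z.1⁻¹ X) := by
    intro X
    refine h _ (h1 X) ?_
    rw [twist_dHoch, hdc]
    rfl
  choose β hβ hβd using h2
  obtain ⟨s, f, hf, hg⟩ := exists_interp (symDual k V a)
  have hkos : ∀ Φ ∈ kos n a b, ∀ X, Φ X = ∑ l : s, f l X • Φ l := by
    intro Φ hΦ X
    refine span_induction (p := fun Φ _ => Φ X = ∑ l : s, f l X • Φ l) ?_ ?_ ?_ ?_ hΦ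
    · rintro _ ⟨g, hg', ω, hω, rfl⟩
      have h3 := congrFun (hg g hg') X
      rw [Finset.sum_apply] at h3
      show g X • ω = ∑ l : s, f l X • g l • ω
      rw [h3]
      refine (Finset.sum_smul (R := k) (M := V [⋀^Fin b]→ₗ[k] k)).trans ?_
      refine Finset.sum_congr rfl fun l _ => ?_
      rw [Pi.smul_apply, smul_eq_mul, smul_smul, mul_comm]
    · simp
    · intro Φ Ψ _ _ h1 h2
      simp only [Pi.add_apply, smul_add, Finset.sum_add_distrib, h1, h2]
    · intro r Φ _ h1
      simp only [Pi.smul_apply, h1, Finset.smul_sum, smul_comm r]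
  refine ⟨∑ l : s, fun z Y => f l (τ z.1 Y) • β l z, sum_mem fun l _ => ?_, ?_⟩
  · have h3 : (fun g : G => fun Y => f l (τ g Y)) ∈ regMaps OG (symDual k V a) := by
      have h4 := regMaps_comp (O' := OG) (fun g : G => g⁻¹) R.inv
        (rat_symDual R.inv hτ a (f l) (hf l))
      have h5 : (fun g : G => funRep τ g⁻¹ (f l)) = fun g : G => fun Y => f l (τ g Y) := by
        funext g Y
        show f l (τ (g⁻¹)⁻¹ Y) = _
        rw [inv_inv]
      rw [h5] at h4
      exact h4
    exact regMaps_tensor (regMaps_comp (fun z : G × (Fin i → P) => z.1) (R.fst i) h3) (hβ l)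
  · funext z Y
    have h3 : Y = τ z.1⁻¹ (τ z.1 Y) := by
      rw [← Module.End.mul_apply, ← map_mul, inv_mul_cancel, map_one]
      rfl
    have h4 := congrFun (twist_dHoch (τ := τ) b i
      (∑ l : s, fun (z : G × (Fin i → P)) Y => f l (τ z.1 Y) • β l z) (τ z.1 Y)) z
    have h4' : dHoch P (altRep (resRep P τ) b) i (fun w : G × (Fin i → P) =>
        (∑ l : s, fun (z : G × (Fin i → P)) Y => f l (τ z.1 Y) • β l z) w
          (τ w.1⁻¹ (τ z.1 Y))) z = dHoch P (kosRep (resRep P τ) b) i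
        (∑ l : s, fun (z : G × (Fin i → P)) Y => f l (τ z.1 Y) • β l z) z Y := by
      refine h4.trans ?_
      rw [← h3]
    rw [← h4']
    have h5 : (fun w : G × (Fin i → P) => (∑ l : s, fun (z : G × (Fin i → P)) Y =>
        f l (τ z.1 Y) • β l z) w (τ w.1⁻¹ (τ z.1 Y))) =
        ∑ l : s, (f l (τ z.1 Y)) • β l := by
      funext w
      simp only [Finset.sum_apply, Pi.smul_apply]
      refine Finset.sum_congr rfl fun l _ => ?_
      rw [← Module.End.mul_apply (τ w.1) (τ w.1⁻¹), ← map_mul, mul_inv_cancel, map_one]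
      rfl
    rw [h5, dHoch_sum]
    simp only [dHoch_smul, hβd, Finset.sum_apply, Pi.smul_apply]
    have h6 : (fun X => c z (τ z.1⁻¹ X)) ∈ kos n a b := kos_comp _ (regMaps_apply hc z)
    have h7 := hkos _ h6 (τ z.1 Y)
    simp only [← h3] at h7
    exact h7.symm

/-- evaluation at the origin -/
def ev0 (k : Type*) [Field k] (V : Type*) [AddCommGroup V] [Module k V] (b : ℕ) :
    (V → (V [⋀^Fin b]→ₗ[k] k)) →ₗ[k] (V [⋀^Fin b]→ₗ[k] k) where
  toFun Φ := Φ 0
  map_add' _ _ := rfl
  map_smul' _ _ := rfl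

omit [FiniteDimensional k V] in
theorem kos_zero_const {n : Submodule k V} {b : ℕ} {Φ : V → (V [⋀^Fin b]→ₗ[k] k)}
    (hΦ : Φ ∈ kos n 0 b) : ∃ ω ∈ altVan n b, Φ = fun _ => ω := by
  refine span_induction (p := fun Φ _ => ∃ ω ∈ altVan n b, Φ = fun _ => ω) ?_ ?_ ?_ ?_ hΦ
  · rintro _ ⟨f, hf, ω, hω, rfl⟩
    obtain ⟨c, rfl⟩ := symDual_zero_eq hf
    exact ⟨c • ω, smul_mem _ _ hω, rfl⟩
  · exact ⟨0, zero_mem _, rfl⟩
  · rintro _ _ _ _ ⟨ω, hω, rfl⟩ ⟨η, hη, rfl⟩
    exact ⟨ω + η, add_mem hω hη, rfl⟩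
  · rintro r _ _ ⟨ω, hω, rfl⟩
    exact ⟨r • ω, smul_mem _ _ hω, rfl⟩

omit [FiniteDimensional k V] in
theorem map_ev0 (n : Submodule k V) (b : ℕ) : (kos n 0 b).map (ev0 k V b) = altVan n b := by
  refine le_antisymm ?_ ?_
  · rintro _ ⟨Φ, hΦ, rfl⟩
    obtain ⟨ω, hω, rfl⟩ := kos_zero_const hΦ
    exact hω
  · intro ω hω
    refine ⟨fun _ => (1 : k) • ω, subset_span ⟨fun _ => 1, const_mem_symDual 1, ω, hω, rfl⟩, ?_⟩
    show (1 : k) • ω = ω
    rw [one_smul]

omit [FiniteDimensional k V] in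
theorem kos_inf_ev0 (n : Submodule k V) (b : ℕ) :
    kos n 0 b ⊓ LinearMap.ker (ev0 k V b) = ⊥ := by
  rw [eq_bot_iff]
  rintro Φ ⟨hΦ, h⟩
  obtain ⟨ω, hω, rfl⟩ := kos_zero_const hΦ
  rw [mem_bot]
  have : ω = 0 := h
  rw [this]
  rfl

theorem RZero.alt_of_kos (R : RegStr P O OG OP) (hτ : RatRep OG τ) {n : Submodule k V}
    (hn : ∀ x : P, ∀ v ∈ n, τ (x : G) v ∈ n) {b i : ℕ}
    (h : RZero P (kosRep (resRep P τ) b) O (kos n 0 b) i) :
    RZero P (altRep (resRep P τ) b) O (altVan n b) i := by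
  have h1 := RZero.map (ρ' := altRep (resRep P τ) b) (q := ev0 k V b) R
    (rat_kos R.invP (R.ratP hτ) hn 0 b) (fun x Φ => ?_) (kos_inf_ev0 n b) h
  · rw [map_ev0] at h1
    exact h1
  · show (Φ (τ ((x⁻¹ : P) : G) 0)).compLinearMap _ = (Φ 0).compLinearMap _
    rw [map_zero]

omit [FiniteDimensional k V] in
theorem kosD_equiv (b : ℕ) (x : P) (Φ : V → (V [⋀^Fin (b + 1)]→ₗ[k] k)) :
    kosD k V b (kosRep (resRep P τ) (b + 1) x Φ) =
      kosRep (resRep P τ) b x (kosD k V b Φ) := by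
  funext X
  ext v
  show Φ (τ ((x⁻¹ : P) : G) X) (fun i => τ ((x⁻¹ : P) : G) (Matrix.vecCons X v i)) =
    Φ (τ ((x⁻¹ : P) : G) X)
      (Matrix.vecCons (τ ((x⁻¹ : P) : G) X) (fun i => τ ((x⁻¹ : P) : G) (v i)))
  congr 1
  funext i
  refine Fin.cases ?_ (fun i => ?_) i
  · rfl
  · rfl

theorem kos_inf_kosD [Infinite k] (n : Submodule k V) (a b : ℕ) :
    kos n (a + 1) (b + 1) ⊓ LinearMap.ker (kosD k V b) =
      (kos n a (b + 2)).map (kosD k V (b + 1)) := by
  refine le_antisymm ?_ ?_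
  · rintro Φ ⟨hΦ, h⟩
    obtain ⟨Ψ, hΨ, h2⟩ := (kos_exact n).2 a b Φ hΦ h
    exact ⟨Ψ, hΨ, h2⟩
  · rintro _ ⟨Ψ, hΨ, rfl⟩
    exact ⟨kosD_mem hΨ, kosD_kosD b Ψ⟩

omit [FiniteDimensional k V] in
theorem kos_inf_kosD_zero (n : Submodule k V) (b : ℕ) :
    kos n 0 (b + 1) ⊓ LinearMap.ker (kosD k V b) = ⊥ := by
  rw [eq_bot_iff]
  rintro Φ ⟨hΦ, h⟩
  rw [mem_bot]
  exact kosD_injective_zero hΦ h

omit [FiniteDimensional k V] in
/-- restriction of functions to `E` -/
def resE {E : Type u} [AddCommGroup E] [Module k E] (ι : E →ₗ[k] V) :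
    (V → (V [⋀^Fin 0]→ₗ[k] k)) →ₗ[k] (E → k) where
  toFun Φ X := Φ (ι X) ![]
  map_add' _ _ := rfl
  map_smul' _ _ := rfl

variable {E : Type u} [AddCommGroup E] [Module k E] {ι : E →ₗ[k] V}

omit [FiniteDimensional k V] in
theorem map_resE (hι : Function.Injective ι) (n : Submodule k V) (a : ℕ) :
    (kos n a 0).map (resE ι) = symDual k E a := by
  refine le_antisymm ?_ ?_
  · rintro _ ⟨Φ, hΦ, rfl⟩
    refine span_induction (p := fun Φ _ => resE ι Φ ∈ symDual k E a) ?_ ?_ ?_ ?_ hΦ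
    · rintro _ ⟨f, hf, ω, hω, rfl⟩
      have : resE ι (fun X => f X • ω) = (ω ![]) • fun X => f (ι X) := by
        funext X
        show f (ι X) * ω ![] = ω ![] * f (ι X)
        rw [mul_comm]
      rw [this]
      exact smul_mem _ _ (symDual_comp ι hf)
    · rw [map_zero]
      exact zero_mem _
    · intro Φ Ψ _ _ h1 h2
      rw [map_add]
      exact add_mem h1 h2
    · intro r Φ _ h1
      rw [map_smul]
      exact smul_mem _ r h1
  · obtain ⟨π, hπ⟩ := LinearMap.exists_leftInverse_of_injective ι (LinearMap.ker_eq_bot.2 hι)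
    intro f hf
    let ω : V [⋀^Fin 0]→ₗ[k] k := AlternatingMap.constOfIsEmpty k V (Fin 0) (1 : k)
    refine ⟨fun X => f (π X) • ω, subset_span ⟨_, symDual_comp π hf, ω, ?_, rfl⟩, ?_⟩
    · rintro v ⟨i, _⟩
      exact i.elim0
    · funext X
      show f (π (ι X)) * ω ![] = f X
      have : π (ι X) = X := LinearMap.congr_fun hπ X
      rw [this]
      show f X * 1 = f X
      rw [mul_one]

omit [FiniteDimensional k V] in
theorem resE_equiv {σ : Representation k P E} (hσ : ∀ (x : P) (X : E), ι (σ x X) = τ (x : G) (ι X))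
    (x : P) (Φ : V → (V [⋀^Fin 0]→ₗ[k] k)) :
    resE ι (kosRep (resRep P τ) 0 x Φ) = funRep σ x (resE ι Φ) := by
  funext X
  show Φ (τ ((x⁻¹ : P) : G) (ι X)) (fun i => τ ((x⁻¹ : P) : G) (![] i)) = Φ (ι (σ x⁻¹ X)) ![]
  rw [hσ]
  congr 1
  exact Subsingleton.elim _ _

theorem kos_inf_resE [Infinite k] (ι : E →ₗ[k] V) (a : ℕ) :
    kos (LinearMap.range ι) (a + 1) 0 ⊓ LinearMap.ker (resE ι) =
      (kos (LinearMap.range ι) a 1).map (kosD k V 0) := by
  refine le_antisymm ?_ ?_
  · rintro Φ ⟨hΦ, h⟩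
    obtain ⟨Ψ, hΨ, h2⟩ := (kos_exact (LinearMap.range ι)).1 a Φ hΦ (by
      rintro _ ⟨X, rfl⟩
      ext v
      have h1 : Φ (ι X) ![] = 0 := congrFun (show resE ι Φ = 0 from h) X
      rw [Subsingleton.elim v ![], h1]
      rfl)
    exact ⟨Ψ, hΨ, h2⟩
  · rintro _ ⟨Ψ, hΨ, rfl⟩
    refine ⟨kosD_mem hΨ, ?_⟩
    show resE ι (kosD k V 0 Ψ) = 0
    funext X
    show Ψ (ι X) (Matrix.vecCons (ι X) ![]) = 0
    exact kos_apply hΨ (ι X) _ ⟨0, ⟨X, rfl⟩⟩

omit [FiniteDimensional k V] in
theorem kos_inf_resE_zero (ι : E →ₗ[k] V) :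
    kos (LinearMap.range ι) 0 0 ⊓ LinearMap.ker (resE ι) = ⊥ := by
  rw [eq_bot_iff]
  rintro Φ ⟨hΦ, h⟩
  obtain ⟨ω, hω, rfl⟩ := kos_zero_const hΦ
  rw [mem_bot]
  funext X
  ext v
  have h1 : ω ![] = 0 := congrFun (show resE ι (fun _ => ω) = 0 from h) 0
  rw [Subsingleton.elim v ![]]
  exact h1

/-- No alternating forms in more than `dim V/n` variables. -/
theorem altVan_eq_bot (n : Submodule k V) {m : ℕ} (hm : Module.finrank k (V ⧸ n) < m) :
    altVan n m = ⊥ := by
  classical
  rw [eq_bot_iff]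
  intro ω hω
  rw [mem_bot]
  ext v
  have h1 : ¬ LinearIndependent k (fun i => n.mkQ (v i)) := by
    intro h
    have := h.fintype_card_le_finrank
    rw [Fintype.card_fin] at this
    omega
  obtain ⟨g, hg, j, hj⟩ := Fintype.not_linearIndependent_iff.1 h1
  have h2 : ∑ i, g i • v i ∈ n := by
    rw [← Submodule.ker_mkQ n, LinearMap.mem_ker, map_sum]
    simpa only [map_smul] using hg
  have h3 := hω (Function.update v j (∑ i, g i • v i)) ⟨j, by simpa using h2⟩
  have h4 : ω (Function.update v j (∑ i, g i • v i)) = ∑ i, g i • ω (Function.update v j (v i)) := by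
    have h5 := ω.toMultilinearMap.map_update_sum Finset.univ j (fun i => g i • v i) v
    rw [AlternatingMap.coe_multilinearMap] at h5
    rw [h5]
    refine Finset.sum_congr rfl fun i _ => ?_
    rw [AlternatingMap.map_update_smul]
  rw [h4, Finset.sum_eq_single j] at h3
  · rw [Function.update_eq_self, smul_eq_mul] at h3
    exact (mul_eq_zero.1 h3).resolve_left hj
  · intro i _ hij
    have h6 : ω (Function.update v j (v i)) = 0 := by
      refine ω.map_eq_zero_of_eq _ (i := i) (j := j) ?_ hij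
      simp [Function.update_of_ne hij]
    rw [h6, smul_zero]
  · simp

/-- **The Koszul criterion**, abstract form. -/
theorem koszul_tfae [Infinite k] (R : RegStr P O OG OP) (hτ : RatRep OG τ)
    {σ : Representation k P E} (hι : Function.Injective ι)
    (hσ : ∀ (x : P) (X : E), ι (σ x X) = τ (x : G) (ι X)) :
    List.TFAE [
      ∀ m i, RZero P (funRep σ) O (symDual k E m) i,
      ∀ m i, m ≤ Module.finrank k (V ⧸ LinearMap.range ι) →
        RZero P (funRep σ) O (symDual k E m) i,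
      ∀ m i, m ≤ i → RZero P (altRep (resRep P τ) m) O (altVan (LinearMap.range ι) m) i] := by
  set n := LinearMap.range ι with hn
  have hnP : ∀ x : P, ∀ v ∈ n, τ (x : G) v ∈ n := by
    rintro x _ ⟨X, rfl⟩
    exact ⟨σ x X, hσ x X⟩
  have hrat : ∀ a b, Rat OP (kosRep (resRep P τ) b) (kos n a b) := fun a b =>
    rat_kos R.invP (R.ratP hτ) hnP a b
  tfae_have 1 → 2 := fun h m i _ => h m i
  tfae_have 3 → 1 := by
    intro h
    have hK : ∀ a b i, b ≤ i → RZero P (kosRep (resRep P τ) b) O (kos n a b) i :=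
      fun a b i hi => RZero.tensor R hτ (h b i hi)
    have hdown : ∀ a b i, b + 1 ≤ i →
        RZero P (kosRep (resRep P τ) b) O ((kos n a (b + 1)).map (kosD k V b)) i := by
      intro a
      induction a with
      | zero =>
        intro b i hi
        exact RZero.map R (hrat 0 (b + 1)) (fun x Φ => kosD_equiv b x Φ)
          (kos_inf_kosD_zero n b) (hK 0 (b + 1) i hi)
      | succ a ih =>
        intro b i hi
        refine RZero.right R (hrat (a + 1) (b + 1)) (fun x Φ => kosD_equiv b x Φ) ?_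
          (hK (a + 1) (b + 1) i hi)
        rw [kos_inf_kosD]
        exact ih (b + 1) (i + 1) (by omega)
    intro m i
    rw [← map_resE hι n m]
    cases m with
    | zero =>
      exact RZero.map R (hrat 0 0) (fun x Φ => resE_equiv hσ x Φ) (kos_inf_resE_zero ι)
        (hK 0 0 i (Nat.zero_le i))
    | succ a =>
      refine RZero.right R (hrat (a + 1) 0) (fun x Φ => resE_equiv hσ x Φ) ?_
        (hK (a + 1) 0 i (Nat.zero_le i))
      rw [hn, kos_inf_resE]
      exact hdown a 0 (i + 1) (by omega)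
  tfae_have 2 → 3 := by
    intro h m
    induction m using Nat.strong_induction_on with
    | _ m ih =>
    have hK : ∀ a b i, b < m → b ≤ i → RZero P (kosRep (resRep P τ) b) O (kos n a b) i :=
      fun a b i hb hi => RZero.tensor R hτ (ih b hb i hi)
    intro i hi
    by_cases hm : m ≤ Module.finrank k (V ⧸ n)
    · obtain ⟨i, rfl⟩ : ∃ i', i = i' + m := ⟨i - m, by omega⟩
      have h0 := h m i hm
      rw [← map_resE hι n m] at h0
      cases m with
      | zero =>
        exact RZero.alt_of_kos R hτ hnP (RZero.of_map R (hrat 0 0)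
          (fun x Φ => resE_equiv hσ x Φ) (kos_inf_resE_zero ι) h0)
      | succ m =>
        have h1 : RZero P (kosRep (resRep P τ) 0) O ((kos n m 1).map (kosD k V 0)) (i + 1) := by
          have h2 := RZero.left R (hrat (m + 1) 0) (fun x Φ => resE_equiv hσ x Φ) h0
            (hK (m + 1) 0 (i + 1) (Nat.succ_pos m) (Nat.zero_le _))
          rw [hn, kos_inf_resE] at h2
          exact h2
        have hup : ∀ b a, b + a = m →
            RZero P (kosRep (resRep P τ) b) O ((kos n a (b + 1)).map (kosD k V b))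
              (i + b + 1) := by
          intro b
          induction b with
          | zero =>
            intro a ha
            rw [Nat.zero_add] at ha
            subst ha
            exact h1
          | succ b ihb =>
            intro a ha
            have h3 := RZero.left R (hrat (a + 1) (b + 1)) (fun x Φ => kosD_equiv b x Φ)
              (ihb (a + 1) (by omega)) (hK (a + 1) (b + 1) (i + b + 1 + 1) (by omega) (by omega))
            rw [kos_inf_kosD] at h3
            exact h3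
        have h4 := hup m 0 (by omega)
        exact RZero.alt_of_kos R hτ hnP (RZero.of_map R (hrat 0 (m + 1))
          (fun x Φ => kosD_equiv m x Φ) (kos_inf_kosD_zero n m) h4)
    · rw [altVan_eq_bot n (by omega)]
      exact RZero_bot i
  tfae_finish

end

end Pool.Agent.KosInd
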