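import Mathlib

/-!
Regular cochains `G × P^j → M` and the Hochschild differential of `k[G] ⊗ M`.
-/

namespace Pool.Agent.KosInd

open Submodule

universe u

/-- Regular maps into `M`: finite sums of `z ↦ f z • v` with `f` in the algebra `O` of regular
functions and `v` in `M`. -/
def regMaps {k : Type*} [Field k] {X : Type*} {A : Type*} [AddCommGroup A] [Module k A]
    (O : Subalgebra k (X → k)) (M : Submodule k A) : Submodule k (X → A) :=
  span k {c | ∃ f ∈ O, ∃ v ∈ M, c = fun z => f z • v}

/-- The Hochschild differential of the `P`-module `k[G] ⊗ A`; a cochain of degree `j` is a function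
of `g` in `G` and `x` in `P^j`. -/
def dHoch {k : Type*} [Field k] {G : Type*} [Group G] (P : Subgroup G) {A : Type*}
    [AddCommGroup A] [Module k A] (ρ : Representation k P A) (j : ℕ)
    (c : G × (Fin j → P) → A) : G × (Fin (j + 1) → P) → A := fun z =>
  ρ (z.2 0) (c (z.1 * (z.2 0 : G), Fin.tail z.2)) +
    ∑ i : Fin (j + 1), (-1 : k) ^ ((i : ℕ) + 1) • c (z.1, Fin.contractNth i (· * ·) z.2)

/-- `R^(i+1) Ind_P^G M = 0`: every regular cocycle of degree `i + 1` with values in `M` is the
differential of a regular cochain with values in `M`. -/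
def RZero {k : Type*} [Field k] {G : Type*} [Group G] (P : Subgroup G) {A : Type*}
    [AddCommGroup A] [Module k A] (ρ : Representation k P A)
    (O : ∀ j, Subalgebra k (G × (Fin j → P) → k)) (M : Submodule k A) (i : ℕ) : Prop :=
  ∀ c ∈ regMaps (O (i + 1)) M, dHoch P ρ (i + 1) c = 0 →
    ∃ b ∈ regMaps (O i) M, dHoch P ρ i b = c

section maps

variable {k : Type*} [Field k] {X : Type*} {A : Type*} [AddCommGroup A] [Module k A]
  {A' : Type*} [AddCommGroup A'] [Module k A'] {O : Subalgebra k (X → k)}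
  {M M' : Submodule k A}

theorem smul_mem_regMaps {f : X → k} (hf : f ∈ O) {v : A} (hv : v ∈ M) :
    (fun z => f z • v) ∈ regMaps O M := subset_span ⟨f, hf, v, hv, rfl⟩

theorem regMaps_apply {c : X → A} (hc : c ∈ regMaps O M) (z : X) : c z ∈ M := by
  refine span_induction ?_ ?_ ?_ ?_ hc
  · rintro _ ⟨f, _, v, hv, rfl⟩
    exact M.smul_mem _ hv
  · exact M.zero_mem
  · intro a b _ _ ha hb
    exact M.add_mem ha hb
  · intro r a _ ha
    exact M.smul_mem _ ha

theorem regMaps_mono (h : M ≤ M') : regMaps O M ≤ regMaps O M' := by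
  refine span_mono ?_
  rintro _ ⟨f, hf, v, hv, rfl⟩
  exact ⟨f, hf, v, h hv, rfl⟩

theorem regMaps_map (q : A →ₗ[k] A') {c : X → A} (hc : c ∈ regMaps O M) :
    (fun z => q (c z)) ∈ regMaps O (M.map q) := by
  refine span_induction (p := fun c _ => (fun z => q (c z)) ∈ regMaps O (M.map q)) ?_ ?_ ?_ ?_ hc
  · rintro _ ⟨f, hf, v, hv, rfl⟩
    simp only [map_smul]
    exact smul_mem_regMaps hf (mem_map_of_mem hv)
  · simp only [Pi.zero_apply, map_zero]
    exact zero_mem _
  · intro a b _ _ ha hb
    simp only [Pi.add_apply, map_add]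
    exact add_mem ha hb
  · intro r a _ ha
    simp only [Pi.smul_apply, map_smul]
    exact smul_mem _ r ha

theorem regMaps_lift (q : A →ₗ[k] A') {c : X → A'} (hc : c ∈ regMaps O (M.map q)) :
    ∃ b ∈ regMaps O M, (fun z => q (b z)) = c := by
  refine span_induction (p := fun c _ => ∃ b ∈ regMaps O M, (fun z => q (b z)) = c)
    ?_ ?_ ?_ ?_ hc
  · rintro _ ⟨f, hf, v, ⟨w, hw, rfl⟩, rfl⟩
    exact ⟨_, smul_mem_regMaps hf hw, by simp⟩
  · exact ⟨0, zero_mem _, by funext z; simp⟩
  · rintro a b _ _ ⟨a', ha', rfl⟩ ⟨b', hb', rfl⟩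
    exact ⟨a' + b', add_mem ha' hb', by funext z; simp⟩
  · rintro r a _ ⟨a', ha', rfl⟩
    exact ⟨r • a', smul_mem _ r ha', by funext z; simp⟩

theorem regMaps_of_mem {c : X → A} (hc : c ∈ regMaps O M) (h : ∀ z, c z ∈ M') :
    c ∈ regMaps O M' := by
  obtain ⟨π, hπ⟩ := LinearMap.exists_leftInverse_of_injective M'.subtype
    (LinearMap.ker_eq_bot.2 M'.injective_subtype)
  have h1 : (fun z => (M'.subtype ∘ₗ π) (c z)) = c := by
    funext z
    have := LinearMap.congr_fun hπ ⟨c z, h z⟩
    simp only [LinearMap.comp_apply, LinearMap.id_apply, coe_subtype] at this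
    simp only [LinearMap.comp_apply, coe_subtype, this]
  rw [← h1]
  refine regMaps_mono ?_ (regMaps_map (M'.subtype ∘ₗ π) hc)
  rintro _ ⟨v, _, rfl⟩
  exact (π v).2

theorem regMaps_comp {Y : Type*} {O' : Subalgebra k (Y → k)} (φ : Y → X)
    (h : ∀ f ∈ O, (fun y => f (φ y)) ∈ O') {c : X → A} (hc : c ∈ regMaps O M) :
    (fun y => c (φ y)) ∈ regMaps O' M := by
  refine span_induction (p := fun c _ => (fun y => c (φ y)) ∈ regMaps O' M) ?_ ?_ ?_ ?_ hc
  · rintro _ ⟨f, hf, v, hv, rfl⟩
    exact smul_mem_regMaps (h f hf) hv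
  · exact zero_mem _
  · intro a b _ _ ha hb
    exact add_mem ha hb
  · intro r a _ ha
    exact smul_mem _ r ha

theorem regMaps_smul {f : X → k} (hf : f ∈ O) {c : X → A} (hc : c ∈ regMaps O M) :
    (fun z => f z • c z) ∈ regMaps O M := by
  refine span_induction (p := fun c _ => (fun z => f z • c z) ∈ regMaps O M) ?_ ?_ ?_ ?_ hc
  · rintro _ ⟨f', hf', v, hv, rfl⟩
    have : (fun z => f z • f' z • v) = fun z => (f * f') z • v := by
      funext z
      simp [mul_smul]
    rw [this]
    exact smul_mem_regMaps (O.mul_mem hf hf') hv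
  · simp only [Pi.zero_apply, smul_zero]
    exact zero_mem _
  · intro a b _ _ ha hb
    simp only [Pi.add_apply, smul_add]
    exact add_mem ha hb
  · intro r a _ ha
    have : (fun z => f z • (r • a) z) = r • fun z => f z • a z := by
      funext z
      simp only [Pi.smul_apply, smul_smul, mul_comm]
    rw [this]
    exact smul_mem _ r ha

end maps

section complex

variable {k : Type*} [Field k] {G : Type*} [Group G] (P : Subgroup G) {A : Type*}
    [AddCommGroup A] [Module k A] (ρ : Representation k P A) {A' : Type*}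
    [AddCommGroup A'] [Module k A'] (ρ' : Representation k P A')

theorem dHoch_add (j : ℕ) (b c : G × (Fin j → P) → A) :
    dHoch P ρ j (b + c) = dHoch P ρ j b + dHoch P ρ j c := by
  funext z
  simp only [dHoch, Pi.add_apply, map_add, smul_add, Finset.sum_add_distrib]
  abel

theorem dHoch_smul (j : ℕ) (r : k) (c : G × (Fin j → P) → A) :
    dHoch P ρ j (r • c) = r • dHoch P ρ j c := by
  funext z
  simp only [dHoch, Pi.smul_apply, map_smul, smul_add, Finset.smul_sum, smul_comm r]

theorem dHoch_sub (j : ℕ) (b c : G × (Fin j → P) → A) :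
    dHoch P ρ j (b - c) = dHoch P ρ j b - dHoch P ρ j c := by
  have h := dHoch_add P ρ j (b - c) c
  rw [sub_add_cancel] at h
  rw [h, add_sub_cancel_right]

theorem dHoch_zero (j : ℕ) : dHoch P ρ j 0 = 0 := by
  have h := dHoch_smul P ρ j 0 0
  simpa using h

theorem dHoch_sum (j : ℕ) {ι : Type*} (s : Finset ι) (c : ι → G × (Fin j → P) → A) :
    dHoch P ρ j (∑ l ∈ s, c l) = ∑ l ∈ s, dHoch P ρ j (c l) := by
  classical
  induction s using Finset.induction_on with
  | empty => simp [dHoch_zero]
  | insert a s ha ih => rw [Finset.sum_insert ha, Finset.sum_insert ha, dHoch_add, ih]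

theorem dHoch_map {q : A →ₗ[k] A'} (hq : ∀ x v, q (ρ x v) = ρ' x (q v)) (j : ℕ)
    (c : G × (Fin j → P) → A) :
    dHoch P ρ' j (fun z => q (c z)) = fun z => q (dHoch P ρ j c z) := by
  funext z
  simp only [dHoch, map_add, map_sum, map_smul, hq]

end complex

section dd

variable {k : Type u} [Field k] {G : Type u} [Group G] (P : Subgroup G) {A : Type u}
    [AddCommGroup A] [Module k A] (ρ : Representation k P A)

/-- The representation of `P` on the functions `G → A`. -/
def funG : Representation k P (G → A) where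
  toFun x :=
    { toFun := fun f g => ρ x (f (g * (x : G)))
      map_add' := fun a b => by funext g; simp
      map_smul' := fun r a => by funext g; simp }
  map_one' := by
    ext f g
    simp
  map_mul' x y := by
    ext f g
    simp [mul_assoc]

theorem d_apply (j : ℕ) (F : (Fin j → P) → (G → A)) (x : Fin (j + 1) → P) (g : G) :
    (ModuleCat.Hom.hom (inhomogeneousCochains.d (Rep.of (funG P ρ)) j)) F x g =
      dHoch P ρ j (fun z => F z.2 z.1) (g, x) := by
  have h : (ModuleCat.Hom.hom (inhomogeneousCochains.d (Rep.of (funG P ρ)) j)) F x =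
      (funG P ρ (x 0) (F fun i => x i.succ)) + Finset.univ.sum fun i : Fin (j + 1) =>
        (-1 : k) ^ ((i : ℕ) + 1) • F (Fin.contractNth i (· * ·) x) := rfl
  rw [h, Pi.add_apply, Finset.sum_apply]
  rfl

theorem dHoch_dHoch (j : ℕ) (c : G × (Fin j → P) → A) :
    dHoch P ρ (j + 1) (dHoch P ρ j c) = 0 := by
  have h := groupCohomology.inhomogeneousCochains.d_comp_d (n := j) (A := Rep.of (funG P ρ))
  have h2 := congrArg (fun F => F.hom (fun x g => c (g, x))) h
  funext z
  have h3 := congrFun (congrFun h2 z.2) z.1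
  simp only [ModuleCat.hom_comp, LinearMap.comp_apply] at h3
  rw [d_apply] at h3
  have h4 : (fun z : G × (Fin (j + 1) → P) =>
      (ModuleCat.Hom.hom (inhomogeneousCochains.d (Rep.of (funG P ρ)) j))
        (fun x g => c (g, x)) z.2 z.1) = dHoch P ρ j c := by
    funext z
    rw [d_apply]
  rw [h4] at h3
  exact h3

end dd

end Pool.Agent.KosInd
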