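import Pool.Agent.Lib.MP_69ab1c_al_ko.Lie

/-!
The vanishing statements for `P ≤ G ≤ GL_N` and the Koszul criterion for them.
-/

namespace Pool.Agent.KosInd

open Submodule

universe u

variable {k : Type u} [Field k] {N : ℕ}

/-- The adjoint action of `P` on `Lie U`, for `U` normalised by `P`. -/
def adLie (G P U : Subgroup (GL (Fin N) k)) (hU : ∀ x ∈ P, ∀ u ∈ U, x * u * x⁻¹ ∈ U) :
    Representation k (P.subgroupOf G) (lieAlg U) :=
  conjRep (G.subtype.comp (P.subgroupOf G).subtype) (lieAlg U)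
    fun x _ hX => lieAlg_conj ((x : G) : GL (Fin N) k) (hU _ (Subgroup.mem_subgroupOf.1 x.2)) hX

/-- The adjoint action of `G` on a `G`-stable space `V` of matrices. -/
def adSpace (G : Subgroup (GL (Fin N) k)) (V : Submodule k (Matrix (Fin N) (Fin N) k))
    (hV : ∀ g ∈ G, ∀ X ∈ V, (g : Matrix (Fin N) (Fin N) k) * X *
      ((g⁻¹ : GL (Fin N) k) : Matrix (Fin N) (Fin N) k) ∈ V) :
    Representation k G V :=
  conjRep G.subtype V fun g X hX => hV g g.2 X hX

/-- `R^(i+1) Ind_P^G S^m((Lie U)^*) = 0`. -/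
def SymVanishes (G P U : Subgroup (GL (Fin N) k)) (hU : ∀ x ∈ P, ∀ u ∈ U, x * u * x⁻¹ ∈ U)
    (m i : ℕ) : Prop :=
  RZero (P.subgroupOf G) (funRep (adLie G P U hU)) (regFns G (P.subgroupOf G))
    (symDual k (lieAlg U) m) i

/-- `R^(i+1) Ind_P^G Λ^m((V / Lie U)^*) = 0`. -/
def AltVanishes (G P U : Subgroup (GL (Fin N) k)) (V : Submodule k (Matrix (Fin N) (Fin N) k))
    (hV : ∀ g ∈ G, ∀ X ∈ V, (g : Matrix (Fin N) (Fin N) k) * X *
      ((g⁻¹ : GL (Fin N) k) : Matrix (Fin N) (Fin N) k) ∈ V) (m i : ℕ) : Prop :=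
  RZero (P.subgroupOf G) (altRep (resRep (P.subgroupOf G) (adSpace G V hV)) m)
    (regFns G (P.subgroupOf G)) (altVan ((lieAlg U).comap V.subtype) m) i

/-- **The Koszul criterion.** -/
theorem koszul_criterion [Infinite k] (G P U : Subgroup (GL (Fin N) k))
    (hU : ∀ x ∈ P, ∀ u ∈ U, x * u * x⁻¹ ∈ U)
    (V : Submodule k (Matrix (Fin N) (Fin N) k))
    (hV : ∀ g ∈ G, ∀ X ∈ V, (g : Matrix (Fin N) (Fin N) k) * X *
      ((g⁻¹ : GL (Fin N) k) : Matrix (Fin N) (Fin N) k) ∈ V) (hUV : lieAlg U ≤ V) :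
    List.TFAE [
      ∀ m i, SymVanishes G P U hU m i,
      ∀ m i, m ≤ Module.finrank k V - Module.finrank k (lieAlg U) → SymVanishes G P U hU m i,
      ∀ m i, m ≤ i → AltVanishes G P U V hV m i] := by
  have h := koszul_tfae (ι := Submodule.inclusion hUV) (τ := adSpace G V hV)
    (σ := adLie G P U hU) (regStr G (P.subgroupOf G))
    (ratRep_conj G.subtype V (fun g X hX => hV g g.2 X hX)) (Submodule.inclusion_injective hUV)
    (fun x X => rfl)
  have h1 : LinearMap.range (Submodule.inclusion hUV) = (lieAlg U).comap V.subtype :=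
    Submodule.range_inclusion _ _ hUV
  have h2 : Module.finrank k (V ⧸ LinearMap.range (Submodule.inclusion hUV)) =
      Module.finrank k V - Module.finrank k (lieAlg U) := by
    have h3 := Submodule.finrank_quotient_add_finrank
      (LinearMap.range (Submodule.inclusion hUV))
    rw [LinearMap.finrank_range_of_inj (Submodule.inclusion_injective hUV)] at h3
    omega
  rw [h2, h1] at h
  exact h

end Pool.Agent.KosInd
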