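import Mathlib

/-!
Homogeneous polynomial functions and exactness of the Koszul complex
`S^a(V^*) ⊗ Λ^b((V/n)^*)` (polynomial functions with values in alternating forms).
-/

namespace Pool.Agent.KosInd

open Submodule

/-- `S^a(E^*)`, realised as the homogeneous polynomial functions of degree `a` on `E`: the span of
the products of `a` linear forms. -/
def symDual (k : Type*) [Field k] (E : Type*) [AddCommGroup E] [Module k E] (a : ℕ) :
    Submodule k (E → k) :=
  span k {f | ∃ l : Fin a → Module.Dual k E, f = fun X => ∏ i, l i X}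

/-- `Λ^b((V/n)^*)`: the alternating forms in `b` variables on `V` which vanish as soon as one
variable is in `n`. -/
def altVan {k : Type*} [Field k] {V : Type*} [AddCommGroup V] [Module k V] (n : Submodule k V)
    (b : ℕ) : Submodule k (V [⋀^Fin b]→ₗ[k] k) where
  carrier := {ω | ∀ v : Fin b → V, (∃ i, v i ∈ n) → ω v = 0}
  add_mem' := fun ha hb v hv => by
    rw [AlternatingMap.add_apply, ha v hv, hb v hv, add_zero]
  zero_mem' := fun _ _ => rfl
  smul_mem' := fun r a ha v hv => by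
    rw [AlternatingMap.smul_apply, ha v hv, smul_zero]

section

variable {k : Type*} [Field k] {E : Type*} [AddCommGroup E] [Module k E]

theorem symDual_mul (l : Module.Dual k E) {a : ℕ} {f : E → k} (hf : f ∈ symDual k E a) :
    (fun X => l X * f X) ∈ symDual k E (a + 1) := by
  refine span_induction (p := fun f _ => (fun X => l X * f X) ∈ symDual k E (a + 1))
    ?_ ?_ ?_ ?_ hf
  · rintro _ ⟨m, rfl⟩
    refine subset_span ⟨Fin.cons l m, ?_⟩
    funext X
    rw [Fin.prod_univ_succ]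
    simp
  · simp only [Pi.zero_apply, mul_zero]
    exact zero_mem _
  · intro f g _ _ hf hg
    simp only [Pi.add_apply, mul_add]
    exact add_mem hf hg
  · intro r f _ hf
    have : (fun X => l X * (r • f) X) = r • fun X => l X * f X := by
      funext X
      simp only [Pi.smul_apply, smul_eq_mul]
      ring
    rw [this]
    exact smul_mem _ r hf

theorem const_mem_symDual (c : k) : (fun _ => c) ∈ symDual k E 0 := by
  have h : (fun _ : E => c) = c • fun _ : E => (1 : k) := by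
    funext X
    simp
  rw [h]
  refine smul_mem _ c (subset_span ⟨fun _ => 0, ?_⟩)
  funext X
  simp

theorem symDual_zero_eq {f : E → k} (hf : f ∈ symDual k E 0) : ∃ c, f = fun _ => c := by
  refine span_induction (p := fun f _ => ∃ c, f = fun _ => c) ?_ ?_ ?_ ?_ hf
  · rintro _ ⟨m, rfl⟩
    exact ⟨1, by funext X; simp⟩
  · exact ⟨0, rfl⟩
  · rintro f g _ _ ⟨c, rfl⟩ ⟨d, rfl⟩
    exact ⟨c + d, rfl⟩
  · rintro r f _ ⟨c, rfl⟩
    exact ⟨r • c, rfl⟩

theorem symDual_succ_induction {a : ℕ} {p : (E → k) → Prop} (h0 : p 0)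
    (hadd : ∀ f g, p f → p g → p (f + g)) (hsmul : ∀ (r : k) f, p f → p (r • f))
    (hmul : ∀ (l : Module.Dual k E) f, f ∈ symDual k E a → p (fun X => l X * f X))
    {f : E → k} (hf : f ∈ symDual k E (a + 1)) : p f := by
  refine span_induction (p := fun f _ => p f) ?_ h0 (fun f g _ _ => hadd f g)
    (fun r f _ => hsmul r f) hf
  rintro _ ⟨m, rfl⟩
  have h := hmul (m 0) (fun X => ∏ i : Fin a, m i.succ X)
    (subset_span ⟨fun i : Fin a => m i.succ, rfl⟩)
  convert h using 1
  funext X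
  rw [Fin.prod_univ_succ]

/-- composition with a linear map -/
theorem symDual_comp {E' : Type*} [AddCommGroup E'] [Module k E'] (T : E' →ₗ[k] E) {a : ℕ}
    {f : E → k} (hf : f ∈ symDual k E a) : (fun X => f (T X)) ∈ symDual k E' a := by
  refine span_induction (p := fun f _ => (fun X => f (T X)) ∈ symDual k E' a) ?_ ?_ ?_ ?_ hf
  · rintro _ ⟨m, rfl⟩
    exact subset_span ⟨fun i => (m i) ∘ₗ T, rfl⟩
  · exact zero_mem _
  · intro f g _ _ hf hg
    exact add_mem hf hg
  · intro r f _ hf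
    exact smul_mem _ r hf

/-- division by a linear form -/
theorem symDual_div (x : Module.Dual k E) (u : E) (a : ℕ) {f : E → k}
    (hf : f ∈ symDual k E (a + 1)) :
    ∃ g ∈ symDual k E a, ∀ X, f X - f (X - x X • u) = x X * g X := by
  induction a generalizing f with
  | zero =>
    refine symDual_succ_induction (p := fun f => ∃ g ∈ symDual k E 0,
      ∀ X, f X - f (X - x X • u) = x X * g X) ?_ ?_ ?_ ?_ hf
    · exact ⟨0, zero_mem _, fun X => by simp⟩
    · rintro f f' ⟨g, hg, h⟩ ⟨g', hg', h'⟩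
      refine ⟨g + g', add_mem hg hg', fun X => ?_⟩
      have h1 := h X
      have h2 := h' X
      simp only [Pi.add_apply]
      linear_combination h1 + h2
    · rintro r f ⟨g, hg, h⟩
      refine ⟨r • g, smul_mem _ r hg, fun X => ?_⟩
      have h1 := h X
      simp only [Pi.smul_apply, smul_eq_mul]
      linear_combination r * h1
    · intro l f hf
      obtain ⟨c, rfl⟩ := symDual_zero_eq hf
      refine ⟨fun _ => l u * c, const_mem_symDual _, fun X => ?_⟩
      simp only [map_sub, map_smul, smul_eq_mul]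
      ring
  | succ a ih =>
    refine symDual_succ_induction (p := fun f => ∃ g ∈ symDual k E (a + 1),
      ∀ X, f X - f (X - x X • u) = x X * g X) ?_ ?_ ?_ ?_ hf
    · exact ⟨0, zero_mem _, fun X => by simp⟩
    · rintro f f' ⟨g, hg, h⟩ ⟨g', hg', h'⟩
      refine ⟨g + g', add_mem hg hg', fun X => ?_⟩
      have h1 := h X
      have h2 := h' X
      simp only [Pi.add_apply]
      linear_combination h1 + h2
    · rintro r f ⟨g, hg, h⟩
      refine ⟨r • g, smul_mem _ r hg, fun X => ?_⟩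
      have h1 := h X
      simp only [Pi.smul_apply, smul_eq_mul]
      linear_combination r * h1
    · intro l f hf
      obtain ⟨g, hg, h⟩ := ih hf
      refine ⟨(l u) • f + fun X => (l - (l u) • x) X * g X, add_mem (smul_mem _ _ hf)
        (symDual_mul _ hg), fun X => ?_⟩
      have h1 := h X
      simp only [map_sub, map_smul, smul_eq_mul, Pi.add_apply, Pi.smul_apply,
        LinearMap.sub_apply, LinearMap.smul_apply]
      linear_combination (l X - x X * l u) * h1

/-- restriction to a line is a polynomial -/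
theorem symDual_line {a : ℕ} {f : E → k} (hf : f ∈ symDual k E a) (X u : E) :
    ∃ q : Polynomial k, ∀ s : k, f (X + s • u) = q.eval s := by
  refine span_induction (p := fun f _ => ∃ q : Polynomial k, ∀ s : k, f (X + s • u) = q.eval s)
    ?_ ?_ ?_ ?_ hf
  · rintro _ ⟨m, rfl⟩
    refine ⟨∏ i, (Polynomial.C (m i X) + Polynomial.X * Polynomial.C (m i u)), fun s => ?_⟩
    rw [Polynomial.eval_prod]
    refine Finset.prod_congr rfl fun i _ => ?_
    simp only [map_add, map_smul, smul_eq_mul, Polynomial.eval_add, Polynomial.eval_C,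
      Polynomial.eval_mul, Polynomial.eval_X]
  · exact ⟨0, by simp⟩
  · rintro f g _ _ ⟨p, hp⟩ ⟨q, hq⟩
    exact ⟨p + q, fun s => by simp [hp, hq]⟩
  · rintro r f _ ⟨p, hp⟩
    exact ⟨Polynomial.C r * p, fun s => by simp [hp]⟩

/-- no zero divisors -/
theorem symDual_cancel [Infinite k] {a : ℕ} {f : E → k} (hf : f ∈ symDual k E a)
    (n : Submodule k E) (x : Module.Dual k E) {u : E} (hu : u ∈ n) (hxu : x u = 1)
    (h : ∀ X ∈ n, x X * f X = 0) : ∀ X ∈ n, f X = 0 := by
  intro X hX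
  obtain ⟨q, hq⟩ := symDual_line hf X u
  have h1 : q = 0 := by
    refine Polynomial.eq_zero_of_infinite_isRoot q (Set.Infinite.mono ?_
      ((Set.finite_singleton (-(x X))).infinite_compl))
    intro s hs
    have h2 := h (X + s • u) (n.add_mem hX (n.smul_mem s hu))
    have h3 : x (X + s • u) ≠ 0 := by
      intro h4
      rw [map_add, map_smul, hxu, smul_eq_mul, mul_one] at h4
      exact hs (by simpa using eq_neg_of_add_eq_zero_right h4)
    rw [Set.mem_ofPred_eq, Polynomial.IsRoot.def, ← hq s]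
    exact (mul_eq_zero.1 h2).resolve_left h3
  have h2 := hq 0
  rw [h1] at h2
  simpa using h2

end

theorem exists_proj {k : Type*} [Field k] {A : Type*} [AddCommGroup A] [Module k A]
    (M : Submodule k A) : ∃ T : A →ₗ[k] A, (∀ v, T v ∈ M) ∧ ∀ v ∈ M, T v = v := by
  obtain ⟨π, hπ⟩ := LinearMap.exists_leftInverse_of_injective M.subtype
    (LinearMap.ker_eq_bot.2 M.injective_subtype)
  refine ⟨M.subtype ∘ₗ π, fun v => (π v).2, fun v hv => ?_⟩
  have := LinearMap.congr_fun hπ ⟨v, hv⟩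
  simp only [LinearMap.comp_apply, LinearMap.id_apply, coe_subtype] at this
  simp only [LinearMap.comp_apply, coe_subtype, this]

section koszul

variable {k : Type*} [Field k] {V : Type*} [AddCommGroup V] [Module k V]

/-- `S^a(V^*) ⊗ Λ^b((V/n)^*)`: the homogeneous polynomial functions of degree `a` on `V` with
values in the alternating forms in `b` variables on `V/n`. -/
def kos (n : Submodule k V) (a b : ℕ) : Submodule k (V → (V [⋀^Fin b]→ₗ[k] k)) :=
  span k {Φ | ∃ f ∈ symDual k V a, ∃ ω ∈ altVan n b, Φ = fun X => f X • ω}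

/-- The Koszul differential: insert the point `X` as the first variable. -/
def kosD (k : Type*) [Field k] (V : Type*) [AddCommGroup V] [Module k V] (b : ℕ) :
    (V → (V [⋀^Fin (b + 1)]→ₗ[k] k)) →ₗ[k] (V → (V [⋀^Fin b]→ₗ[k] k)) where
  toFun Φ := fun X => (Φ X).curryLeft X
  map_add' Φ Ψ := by
    funext X
    simp
  map_smul' r Φ := by
    funext X
    simp

theorem kosD_apply (b : ℕ) (Φ : V → (V [⋀^Fin (b + 1)]→ₗ[k] k)) (X : V) (v : Fin b → V) :
    kosD k V b Φ X v = Φ X (Matrix.vecCons X v) := rfl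

theorem kosD_kosD (b : ℕ) (Φ : V → (V [⋀^Fin (b + 2)]→ₗ[k] k)) :
    kosD k V b (kosD k V (b + 1) Φ) = 0 := by
  funext X
  exact AlternatingMap.curryLeft_same (Φ X) X

/-- contraction with a fixed vector -/
def contr (u : V) (b : ℕ) :
    (V → (V [⋀^Fin (b + 1)]→ₗ[k] k)) →ₗ[k] (V → (V [⋀^Fin b]→ₗ[k] k)) where
  toFun Φ := fun X => (Φ X).curryLeft u
  map_add' Φ Ψ := by
    funext X
    simp
  map_smul' r Φ := by
    funext X
    simp

/-- wedge product with a fixed linear form -/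
def wedge (x : Module.Dual k V) (b : ℕ) :
    (V [⋀^Fin b]→ₗ[k] k) →ₗ[k] (V [⋀^Fin (b + 1)]→ₗ[k] k) where
  toFun ω := AlternatingMap.alternatizeUncurryFin (LinearMap.smulRight x ω)
  map_add' ω η := by
    ext v
    simp [AlternatingMap.alternatizeUncurryFin_apply, Finset.sum_add_distrib]
  map_smul' r ω := by
    ext v
    simp only [AlternatingMap.alternatizeUncurryFin_apply, LinearMap.smulRight_apply,
      AlternatingMap.smul_apply, smul_eq_mul, RingHom.id_apply, Finset.mul_sum]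
    refine Finset.sum_congr rfl fun i _ => ?_
    simp only [zsmul_eq_mul]
    ring

theorem wedge_apply (x : Module.Dual k V) (b : ℕ) (ω : V [⋀^Fin b]→ₗ[k] k)
    (v : Fin (b + 1) → V) :
    wedge x b ω v = ∑ i : Fin (b + 1), (-1) ^ (i : ℕ) • (x (v i) * ω (i.removeNth v)) := by
  show AlternatingMap.alternatizeUncurryFin (LinearMap.smulRight x ω) v = _
  rw [AlternatingMap.alternatizeUncurryFin_apply]
  rfl

theorem altVan_mono {n n' : Submodule k V} (h : n ≤ n') (b : ℕ) : altVan n' b ≤ altVan n b :=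
  fun _ hω v ⟨i, hi⟩ => hω v ⟨i, h hi⟩

theorem kos_mono {n n' : Submodule k V} (h : n ≤ n') (a b : ℕ) : kos n' a b ≤ kos n a b := by
  refine span_mono ?_
  rintro _ ⟨f, hf, ω, hω, rfl⟩
  exact ⟨f, hf, ω, altVan_mono h b hω, rfl⟩

/-- An operator on the values. -/
theorem kos_map {n n' : Submodule k V} {a b b' : ℕ}
    (T : (V [⋀^Fin b]→ₗ[k] k) →ₗ[k] (V [⋀^Fin b']→ₗ[k] k))
    (hT : ∀ ω ∈ altVan n b, T ω ∈ altVan n' b') {Φ : V → (V [⋀^Fin b]→ₗ[k] k)}
    (hΦ : Φ ∈ kos n a b) : (fun X => T (Φ X)) ∈ kos n' a b' := by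
  refine span_induction (p := fun Φ _ => (fun X => T (Φ X)) ∈ kos n' a b') ?_ ?_ ?_ ?_ hΦ
  · rintro _ ⟨f, hf, ω, hω, rfl⟩
    simp only [map_smul]
    exact subset_span ⟨f, hf, _, hT ω hω, rfl⟩
  · simp only [Pi.zero_apply, map_zero]
    exact zero_mem _
  · intro Φ Ψ _ _ h1 h2
    simp only [Pi.add_apply, map_add]
    exact add_mem h1 h2
  · intro r Φ _ h1
    simp only [Pi.smul_apply, map_smul]
    exact smul_mem _ r h1

theorem kos_apply {n : Submodule k V} {a b : ℕ} {Φ : V → (V [⋀^Fin b]→ₗ[k] k)}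
    (hΦ : Φ ∈ kos n a b) (X : V) : Φ X ∈ altVan n b := by
  refine span_induction (p := fun Φ _ => Φ X ∈ altVan n b) ?_ ?_ ?_ ?_ hΦ
  · rintro _ ⟨f, hf, ω, hω, rfl⟩
    exact smul_mem _ _ hω
  · exact zero_mem _
  · intro Φ Ψ _ _ h1 h2
    exact add_mem h1 h2
  · intro r Φ _ h1
    exact smul_mem _ r h1

theorem kos_of_mem {n n' : Submodule k V} {a b : ℕ} {Φ : V → (V [⋀^Fin b]→ₗ[k] k)}
    (hΦ : Φ ∈ kos n a b) (h : ∀ X, Φ X ∈ altVan n' b) : Φ ∈ kos n' a b := by
  obtain ⟨T, hT, hT2⟩ := exists_proj (altVan n' b)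
  have h1 : (fun X => T (Φ X)) = Φ := funext fun X => hT2 _ (h X)
  rw [← h1]
  exact kos_map T (fun ω _ => hT ω) hΦ

theorem altVan_curryLeft {n : Submodule k V} {b : ℕ} {ω : V [⋀^Fin (b + 1)]→ₗ[k] k}
    (hω : ω ∈ altVan n (b + 1)) (u : V) : ω.curryLeft u ∈ altVan n b := by
  rintro v ⟨i, hi⟩
  exact hω _ ⟨i.succ, hi⟩

theorem altVan_curryLeft' {n : Submodule k V} {b : ℕ} {ω : V [⋀^Fin (b + 1)]→ₗ[k] k}
    (hω : ω ∈ altVan n (b + 1)) (u : V) : ω.curryLeft u ∈ altVan (n ⊔ span k {u}) b := by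
  rintro v ⟨i, hi⟩
  obtain ⟨y, hy, z, hz, hyz⟩ := mem_sup.1 hi
  obtain ⟨r, rfl⟩ := mem_span_singleton.1 hz
  have h1 : v = Function.update v i (y + r • u) := by rw [hyz, Function.update_eq_self]
  rw [h1, AlternatingMap.map_update_add, AlternatingMap.map_update_smul]
  have h2 : ω.curryLeft u (Function.update v i y) = 0 :=
    altVan_curryLeft hω u _ ⟨i, by simpa using hy⟩
  have h3 : ω.curryLeft u (Function.update v i u) = 0 := by
    rw [AlternatingMap.curryLeft_apply_apply]
    refine ω.map_eq_zero_of_eq _ (i := 0) (j := i.succ) ?_ (Fin.succ_ne_zero i).symm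
    simp
  rw [h2, h3, smul_zero, add_zero]

theorem contr_mem {n : Submodule k V} {a b : ℕ} {Φ : V → (V [⋀^Fin (b + 1)]→ₗ[k] k)}
    (hΦ : Φ ∈ kos n a (b + 1)) (u : V) : contr u b Φ ∈ kos (n ⊔ span k {u}) a b := by
  have h := kos_map (n' := n ⊔ span k {u}) ((LinearMap.applyₗ u) ∘ₗ
      (AlternatingMap.curryLeftLinearMap :
        (V [⋀^Fin (b + 1)]→ₗ[k] k) →ₗ[k] (V →ₗ[k] V [⋀^Fin b]→ₗ[k] k)))
      (fun ω hω => altVan_curryLeft' hω u) hΦ
  exact h

theorem wedge_mem {n n' : Submodule k V} (hn : n ≤ n') (x : Module.Dual k V)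
    (hx : ∀ v ∈ n, x v = 0) {b : ℕ} {ω : V [⋀^Fin b]→ₗ[k] k} (hω : ω ∈ altVan n' b) :
    wedge x b ω ∈ altVan n (b + 1) := by
  rintro v ⟨j, hj⟩
  rw [wedge_apply]
  refine Finset.sum_eq_zero fun i _ => ?_
  by_cases hij : i = j
  · rw [hij, hx _ hj, zero_mul, smul_zero]
  · obtain ⟨l, hl⟩ := Fin.exists_succAbove_eq (Ne.symm hij)
    rw [hω (i.removeNth v) ⟨l, by rw [Fin.removeNth_apply, hl]; exact hn hj⟩, mul_zero, smul_zero]

theorem wedge_curryLeft {n' : Submodule k V} {x : Module.Dual k V} {u : V} (hu : u ∈ n')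
    (hxu : x u = 1) {b : ℕ} {ω : V [⋀^Fin b]→ₗ[k] k} (hω : ω ∈ altVan n' b) :
    (wedge x b ω).curryLeft u = ω := by
  ext v
  rw [AlternatingMap.curryLeft_apply_apply, wedge_apply, Fin.sum_univ_succ]
  have h1 : ∀ i : Fin b, (-1 : ℤ) ^ ((i.succ : Fin (b + 1)) : ℕ) •
      (x (Matrix.vecCons u v i.succ) * ω (i.succ.removeNth (Matrix.vecCons u v))) = 0 := by
    intro i
    cases b with
    | zero => exact i.elim0
    | succ b =>
      rw [hω (i.succ.removeNth (Matrix.vecCons u v)) ⟨0, ?_⟩, mul_zero, smul_zero]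
      rw [Fin.removeNth_apply, Fin.succ_succAbove_zero]
      exact hu
  rw [Finset.sum_eq_zero fun i _ => h1 i]
  simp only [Fin.val_zero, pow_zero, one_smul, add_zero, Matrix.cons_val_zero, hxu, one_mul]
  congr 1

theorem contr_kosD (u : V) (b : ℕ) (Φ : V → (V [⋀^Fin (b + 2)]→ₗ[k] k)) :
    contr u b (kosD k V (b + 1) Φ) = - kosD k V b (contr u (b + 1) Φ) := by
  funext X
  ext v
  have h := (Φ X).map_swap (Matrix.vecCons X (Matrix.vecCons u v)) (i := 0) (j := 1)
    (by simp)
  have h2 : (Matrix.vecCons X (Matrix.vecCons u v)) ∘ (Equiv.swap (0 : Fin (b + 2)) 1) =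
      Matrix.vecCons u (Matrix.vecCons X v) := by
    funext i
    refine Fin.cases ?_ (fun i => Fin.cases ?_ (fun i => ?_) i) i
    · simp
    · simp
    · have h3 : Equiv.swap (0 : Fin (b + 2)) 1 i.succ.succ = i.succ.succ := by
        refine Equiv.swap_apply_of_ne_of_ne (Fin.succ_ne_zero _) ?_
        rw [← Fin.succ_zero_eq_one, Ne, Fin.succ_inj]
        exact Fin.succ_ne_zero i
      simp [h3]
  rw [h2] at h
  show Φ X (Matrix.vecCons X (Matrix.vecCons u v)) = - Φ X (Matrix.vecCons u (Matrix.vecCons X v))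
  rw [h, neg_neg]


theorem kosD_mem [FiniteDimensional k V] {n : Submodule k V} {a b : ℕ} {Φ : V → (V [⋀^Fin (b + 1)]→ₗ[k] k)}
    (hΦ : Φ ∈ kos n a (b + 1)) : kosD k V b Φ ∈ kos n (a + 1) b := by
  refine span_induction (p := fun Φ _ => kosD k V b Φ ∈ kos n (a + 1) b) ?_ ?_ ?_ ?_ hΦ
  · rintro _ ⟨f, hf, ω, hω, rfl⟩
    let e := Module.finBasis k V
    have h : kosD k V b (fun X => f X • ω) =
        ∑ j, fun X => (e.coord j X * f X) • ω.curryLeft (e j) := by
      funext X
      rw [Finset.sum_apply]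
      show (f X • ω).curryLeft X = _
      have h1 : ω.curryLeft X = ∑ j, e.coord j X • ω.curryLeft (e j) := by
        conv_lhs => rw [← e.sum_repr X]
        rw [map_sum]
        refine Finset.sum_congr rfl fun j _ => ?_
        rw [map_smul]
        rfl
      rw [AlternatingMap.curryLeft_smul, LinearMap.smul_apply, h1, Finset.smul_sum]
      refine Finset.sum_congr rfl fun j _ => ?_
      rw [smul_smul, mul_comm]
    rw [h]
    exact sum_mem fun j _ => subset_span ⟨_, symDual_mul (e.coord j) hf, _,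
      altVan_curryLeft hω _, rfl⟩
  · rw [map_zero]
    exact zero_mem _
  · intro Φ Ψ _ _ h1 h2
    rw [map_add]
    exact add_mem h1 h2
  · intro r Φ _ h1
    rw [map_smul]
    exact smul_mem _ r h1

theorem altVan_top (b : ℕ) : altVan (⊤ : Submodule k V) (b + 1) = ⊥ := by
  rw [eq_bot_iff]
  intro ω hω
  rw [mem_bot]
  ext v
  exact hω v ⟨0, mem_top⟩

theorem kos_top (a b : ℕ) : kos (⊤ : Submodule k V) a (b + 1) = ⊥ := by
  rw [eq_bot_iff]
  intro Φ hΦ
  rw [mem_bot]
  funext X
  have := kos_apply hΦ X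
  rw [altVan_top, mem_bot] at this
  exact this

theorem altVan_zero {n n' : Submodule k V} : altVan n 0 ≤ altVan n' 0 := by
  rintro ω _ v ⟨i, _⟩
  exact i.elim0

theorem kos_zero {n n' : Submodule k V} (a : ℕ) : kos n a 0 ≤ kos n' a 0 := by
  refine span_mono ?_
  rintro _ ⟨f, hf, ω, hω, rfl⟩
  exact ⟨f, hf, ω, altVan_zero hω, rfl⟩

/-- division by a linear form, for values in forms without variables -/
theorem kos_div (x : Module.Dual k V) (u : V) {n : Submodule k V} {a : ℕ}
    {Φ : V → (V [⋀^Fin 0]→ₗ[k] k)} (hΦ : Φ ∈ kos n (a + 1) 0) :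
    ∃ G ∈ kos n a 0, ∀ X, Φ X - Φ (X - x X • u) = x X • G X := by
  refine span_induction (p := fun Φ _ => ∃ G ∈ kos n a 0,
    ∀ X, Φ X - Φ (X - x X • u) = x X • G X) ?_ ?_ ?_ ?_ hΦ
  · rintro _ ⟨f, hf, ω, hω, rfl⟩
    obtain ⟨g, hg, h⟩ := symDual_div x u a hf
    refine ⟨fun X => g X • ω, subset_span ⟨g, hg, ω, hω, rfl⟩, fun X => ?_⟩
    ext v
    have h2 := h X
    simp only [AlternatingMap.sub_apply, AlternatingMap.smul_apply, smul_eq_mul]
    linear_combination ω v * h2
  · exact ⟨0, zero_mem _, fun X => by simp⟩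
  · rintro Φ Ψ _ _ ⟨G, hG, h⟩ ⟨G', hG', h'⟩
    refine ⟨G + G', add_mem hG hG', fun X => ?_⟩
    rw [Pi.add_apply, Pi.add_apply, Pi.add_apply, smul_add, ← h, ← h']
    abel
  · rintro r Φ _ ⟨G, hG, h⟩
    refine ⟨r • G, smul_mem _ r hG, fun X => ?_⟩
    have h1 := h X
    ext v
    have h2 := DFunLike.congr_fun h1 v
    simp only [AlternatingMap.sub_apply, AlternatingMap.smul_apply, smul_eq_mul,
      Pi.smul_apply] at h2 ⊢
    linear_combination r * h2

theorem kos_comp {n : Submodule k V} {a b : ℕ} (T : V →ₗ[k] V)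
    {Φ : V → (V [⋀^Fin b]→ₗ[k] k)} (hΦ : Φ ∈ kos n a b) : (fun X => Φ (T X)) ∈ kos n a b := by
  refine span_induction (p := fun Φ _ => (fun X => Φ (T X)) ∈ kos n a b) ?_ ?_ ?_ ?_ hΦ
  · rintro _ ⟨f, hf, ω, hω, rfl⟩
    exact subset_span ⟨_, symDual_comp T hf, ω, hω, rfl⟩
  · exact zero_mem _
  · intro Φ Ψ _ _ h1 h2
    exact add_mem h1 h2
  · intro r Φ _ h1
    exact smul_mem _ r h1

theorem kos_cancel [Infinite k] {n n' : Submodule k V} {a : ℕ}
    {Φ : V → (V [⋀^Fin 0]→ₗ[k] k)} (hΦ : Φ ∈ kos n' a 0)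
    (x : Module.Dual k V) {u : V} (hu : u ∈ n) (hxu : x u = 1)
    (h : ∀ X ∈ n, x X • Φ X = 0) : ∀ X ∈ n, Φ X = 0 := by
  have h1 : ∀ v, (fun X => Φ X v) ∈ symDual k V a := by
    intro v
    refine span_induction (p := fun Φ _ => (fun X => Φ X v) ∈ symDual k V a) ?_ ?_ ?_ ?_ hΦ
    · rintro _ ⟨f, hf, ω, hω, rfl⟩
      have : (fun X => (f X • ω) v) = (ω v) • f := by
        funext X
        simp [mul_comm]
      rw [this]
      exact smul_mem _ _ hf
    · exact zero_mem _
    · intro Φ Ψ _ _ h1 h2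
      exact add_mem h1 h2
    · intro r Φ _ h1
      exact smul_mem _ r h1
  intro X hX
  ext v
  exact symDual_cancel (h1 v) n x hu hxu (fun Y hY => by
    have := DFunLike.congr_fun (h Y hY) v
    simpa using this) X hX

/-- **Exactness of the Koszul complex.** -/
theorem kos_exact [FiniteDimensional k V] [Infinite k] (n : Submodule k V) :
    (∀ a, ∀ Φ ∈ kos n (a + 1) 0, (∀ X ∈ n, Φ X = 0) → ∃ Ψ ∈ kos n a 1, kosD k V 0 Ψ = Φ) ∧
    (∀ a b, ∀ Φ ∈ kos n (a + 1) (b + 1), kosD k V b Φ = 0 →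
      ∃ Ψ ∈ kos n a (b + 2), kosD k V (b + 1) Ψ = Φ) := by
  induction n using WellFoundedGT.induction with
  | ind n ih =>
  by_cases hn : n = ⊤
  · subst hn
    refine ⟨fun a Φ _ h => ⟨0, zero_mem _, ?_⟩, fun a b Φ hΦ _ => ⟨0, zero_mem _, ?_⟩⟩
    · rw [map_zero]
      funext X
      exact (h X mem_top).symm
    · rw [kos_top, mem_bot] at hΦ
      rw [hΦ, map_zero]
  obtain ⟨u, -, hu⟩ := SetLike.exists_of_lt (lt_top_iff_ne_top.2 hn)
  obtain ⟨x', hx'u, hx'n⟩ := exists_le_ker_of_notMem hu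
  obtain ⟨x, hxu, hxn⟩ : ∃ x : Module.Dual k V, x u = 1 ∧ ∀ v ∈ n, x v = 0 := by
    refine ⟨(x' u)⁻¹ • x', by simp [hx'u], fun v hv => ?_⟩
    have : x' v = 0 := hx'n hv
    simp [this]
  have hle : n ≤ n ⊔ span k {u} := le_sup_left
  have hun : u ∈ n ⊔ span k {u} := mem_sup_right (mem_span_singleton_self u)
  have hlt : n < n ⊔ span k {u} := lt_of_le_of_ne hle (fun h => hu (h ▸ hun))
  obtain ⟨ih0, ih1⟩ := ih _ hlt
  have hdec : ∀ X ∈ n ⊔ span k {u}, X - x X • u ∈ n := by
    intro X hX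
    obtain ⟨y, hy, z, hz, rfl⟩ := mem_sup.1 hX
    obtain ⟨r, rfl⟩ := mem_span_singleton.1 hz
    rw [map_add, map_smul, hxn y hy, hxu]
    simpa using hy
  -- the step from a contraction that is a boundary
  have key : ∀ a b, ∀ Φ ∈ kos n (a + 1) (b + 1), kosD k V b Φ = 0 →
      (∃ ψ' ∈ kos (n ⊔ span k {u}) a (b + 1), kosD k V b ψ' = contr u b Φ) →
      ∃ Ψ ∈ kos n a (b + 2), kosD k V (b + 1) Ψ = Φ := by
    rintro a b Φ hΦ hd ⟨ψ', hψ', hψ⟩
    have hw : (fun X => wedge x (b + 1) (ψ' X)) ∈ kos n a (b + 2) :=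
      kos_map (wedge x (b + 1)) (fun ω hω => wedge_mem hle x hxn hω) hψ'
    set W : V → (V [⋀^Fin (b + 2)]→ₗ[k] k) := fun X => wedge x (b + 1) (ψ' X) with hW
    have hWc : contr u (b + 1) W = ψ' := by
      funext X
      exact wedge_curryLeft hun hxu (kos_apply hψ' X)
    have h1 : Φ + kosD k V (b + 1) W ∈ kos n (a + 1) (b + 1) := add_mem hΦ (kosD_mem hw)
    have h2 : contr u b (Φ + kosD k V (b + 1) W) = 0 := by
      rw [map_add, contr_kosD, hWc, hψ, add_neg_cancel]
    have h3 : Φ + kosD k V (b + 1) W ∈ kos (n ⊔ span k {u}) (a + 1) (b + 1) := by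
      refine kos_of_mem h1 fun X => ?_
      have h4 := kos_apply h1 X
      have h5 : ((Φ + kosD k V (b + 1) W) X).curryLeft u = 0 := congrFun h2 X
      rintro v ⟨i, hi⟩
      obtain ⟨y, hy, z, hz, hyz⟩ := mem_sup.1 hi
      obtain ⟨r, rfl⟩ := mem_span_singleton.1 hz
      generalize (Φ + kosD k V (b + 1) W) X = ω at h4 h5
      have h6 : v = Function.update v i (y + r • u) := by rw [hyz, Function.update_eq_self]
      rw [h6, AlternatingMap.map_update_add, AlternatingMap.map_update_smul,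
        h4 (Function.update v i y) ⟨i, by simpa using hy⟩, zero_add]
      have h7 : ω (Function.update v i u) = 0 := by
        by_cases hi0 : i = 0
        · subst hi0
          have h8 := DFunLike.congr_fun h5 (fun j => v j.succ)
          rw [AlternatingMap.curryLeft_apply_apply] at h8
          have h9 : Matrix.vecCons u (fun j => v j.succ) = Function.update v 0 u := by
            funext j
            refine Fin.cases ?_ (fun j => ?_) j
            · simp
            · simp
          rw [h9] at h8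
          exact h8
        · have h8 := ω.map_swap (Function.update v i u) (i := 0) (j := i) (Ne.symm hi0)
          have h9 := DFunLike.congr_fun h5
            (fun j => ((Function.update v i u) ∘ (Equiv.swap 0 i)) j.succ)
          rw [AlternatingMap.curryLeft_apply_apply] at h9
          have h10 : Matrix.vecCons u
              (fun j => ((Function.update v i u) ∘ (Equiv.swap 0 i)) (Fin.succ j)) =
              (Function.update v i u) ∘ (Equiv.swap 0 i) := by
            funext j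
            refine Fin.cases ?_ (fun j => ?_) j
            · simp
            · simp
          rw [h10, h8] at h9
          exact neg_eq_zero.1 h9
      rw [h7, smul_zero]
    obtain ⟨φ, hφ, hφ2⟩ := ih1 a b _ h3 (by rw [map_add, hd, kosD_kosD, add_zero])
    refine ⟨φ - W, sub_mem (kos_mono hle _ _ hφ) hw, ?_⟩
    rw [map_sub, hφ2, add_sub_cancel_right]
  refine ⟨?_, ?_⟩
  · intro a Φ hΦ h
    obtain ⟨G, hG, hGX⟩ := kos_div x u hΦ
    have h1 : (fun X => Φ (((LinearMap.id : V →ₗ[k] V) - LinearMap.smulRight x u) X)) ∈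
        kos (n ⊔ span k {u}) (a + 1) 0 := kos_zero _ (kos_comp _ hΦ)
    obtain ⟨Ψ, hΨ, hΨ2⟩ := ih0 a _ h1 (fun X hX => h _ (hdec X hX))
    refine ⟨Ψ + fun X => wedge x 0 (G X), add_mem (kos_mono hle _ _ hΨ)
      (kos_map (n' := n) (wedge x 0) (fun ω hω => wedge_mem le_rfl x hxn hω) hG), ?_⟩
    rw [map_add, hΨ2]
    funext X
    have h2 : kosD k V 0 (fun X => wedge x 0 (G X)) X = x X • G X := by
      ext v
      rw [kosD_apply, wedge_apply]
      simp only [Fin.sum_univ_succ, Finset.univ_eq_empty, Finset.sum_empty, Fin.val_zero,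
        pow_zero, one_smul, add_zero, Matrix.cons_val_zero, AlternatingMap.smul_apply,
        smul_eq_mul]
      congr 2
    rw [Pi.add_apply, h2, ← hGX X]
    simp
  · intro a b Φ hΦ hd
    refine key a b Φ hΦ hd ?_
    cases b with
    | zero =>
      refine ih0 a _ (contr_mem hΦ u) ?_
      refine kos_cancel (contr_mem hΦ u) x hun hxu fun X hX => ?_
      ext v
      have h1 := hdec X hX
      have h2 := kos_apply hΦ X
      have h3 := DFunLike.congr_fun (congrFun hd X) v
      rw [kosD_apply] at h3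
      have h4 : (Φ X).curryLeft X = (Φ X).curryLeft (X - x X • u) + x X • (Φ X).curryLeft u := by
        rw [← map_smul, ← map_add, sub_add_cancel]
      have h5 := DFunLike.congr_fun h4 v
      rw [AlternatingMap.add_apply, AlternatingMap.curryLeft_apply_apply,
        AlternatingMap.curryLeft_apply_apply, h3, h2 _ ⟨0, h1⟩, zero_add] at h5
      exact h5.symm
    | succ b =>
      refine ih1 a b _ (contr_mem hΦ u) ?_
      have := contr_kosD u b Φ
      rw [hd, map_zero, eq_comm, neg_eq_zero] at this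
      exact this

/-- In degree zero the Koszul differential is injective. -/
theorem kosD_injective_zero {n : Submodule k V} {b : ℕ} {Φ : V → (V [⋀^Fin (b + 1)]→ₗ[k] k)}
    (hΦ : Φ ∈ kos n 0 (b + 1)) (h : kosD k V b Φ = 0) : Φ = 0 := by
  have h1 : ∃ ω, Φ = fun _ => ω := by
    refine span_induction (p := fun Φ _ => ∃ ω, Φ = fun _ => ω) ?_ ?_ ?_ ?_ hΦ
    · rintro _ ⟨f, hf, ω, hω, rfl⟩
      obtain ⟨c, rfl⟩ := symDual_zero_eq hf
      exact ⟨c • ω, rfl⟩
    · exact ⟨0, rfl⟩
    · rintro _ _ _ _ ⟨ω, rfl⟩ ⟨η, rfl⟩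
      exact ⟨ω + η, rfl⟩
    · rintro r _ _ ⟨ω, rfl⟩
      exact ⟨r • ω, rfl⟩
  obtain ⟨ω, rfl⟩ := h1
  funext X
  ext v
  have h2 := DFunLike.congr_fun (congrFun h (v 0)) (fun j => v j.succ)
  rw [kosD_apply] at h2
  have h3 : Matrix.vecCons (v 0) (fun j => v j.succ) = v := by
    funext j
    refine Fin.cases ?_ (fun j => ?_) j
    · simp
    · simp
  rw [h3] at h2
  exact h2

end koszul

end Pool.Agent.KosInd
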