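import Pool.Agent.Lib.MP_69ab1c_al_ko.Chain

/-!
Closed subgroups of `GL_N`: regular functions, Lie algebra, adjoint action.
-/

namespace Pool.Agent.KosInd

open Submodule

universe u

/-- The entries of the matrix `e x` and of its inverse, as functions of `x`. -/
def entries {k : Type*} [Field k] {N : ℕ} {X : Type*} (e : X → GL (Fin N) k) : Set (X → k) :=
  {f | ∃ a b, f = (fun x => (e x : Matrix (Fin N) (Fin N) k) a b) ∨
    f = fun x => ((e x)⁻¹ : GL (Fin N) k) a b}

/-- The regular functions on `G × P^j`: the algebra generated by the entries of `g`, of the `x_i`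
and of their inverses. -/
def regFns {k : Type*} [Field k] {N : ℕ} (G : Subgroup (GL (Fin N) k)) (P : Subgroup G) (j : ℕ) :
    Subalgebra k (G × (Fin j → P) → k) :=
  Algebra.adjoin k (entries (fun z : G × (Fin j → P) => (z.1 : GL (Fin N) k)) ∪
    ⋃ i, entries (fun z : G × (Fin j → P) => ((z.2 i : G) : GL (Fin N) k)))

/-- The Lie algebra of the group `H` of matrices: the tangent space at `1`, cut out by the
differentials of the polynomials in the entries which vanish on `H`. -/
def lieAlg {k : Type*} [Field k] {N : ℕ} (H : Subgroup (GL (Fin N) k)) :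
    Submodule k (Matrix (Fin N) (Fin N) k) where
  carrier := {X | ∀ f : MvPolynomial (Fin N × Fin N) k,
    (∀ h ∈ H, MvPolynomial.eval (fun p => (h : Matrix (Fin N) (Fin N) k) p.1 p.2) f = 0) →
    ∑ p : Fin N × Fin N, X p.1 p.2 *
      MvPolynomial.eval (fun p => (1 : Matrix (Fin N) (Fin N) k) p.1 p.2)
        (MvPolynomial.pderiv p f) = 0}
  add_mem' := fun {X Y} hX hY f hf => by
    have h1 := hX f hf
    have h2 := hY f hf
    simp only [Matrix.add_apply, add_mul, Finset.sum_add_distrib, h1, h2, add_zero]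
  zero_mem' := fun f _ => by simp
  smul_mem' := fun r X hX f hf => by
    have h1 := hX f hf
    simp only [Matrix.smul_apply, smul_eq_mul, mul_assoc, ← Finset.mul_sum, h1, mul_zero]

/-- The action of `h` by conjugation on a stable space of matrices. -/
def conjRep {k : Type*} [Field k] {N : ℕ} {H : Type*} [Group H] (e : H →* GL (Fin N) k)
    (V : Submodule k (Matrix (Fin N) (Fin N) k))
    (hV : ∀ h, ∀ X ∈ V, (e h : Matrix (Fin N) (Fin N) k) * X * ((e h)⁻¹ : GL (Fin N) k) ∈ V) :
    Representation k H V where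
  toFun h :=
    { toFun := fun X => ⟨_, hV h X X.2⟩
      map_add' := fun X Y => by
        ext1
        simp [mul_add, add_mul]
      map_smul' := fun r X => by
        ext1
        simp }
  map_one' := by
    ext1 X
    ext1
    simp
  map_mul' g h := by
    ext1 X
    ext1
    simp [mul_assoc]

section

variable {k : Type*} [Field k] {N : ℕ}

theorem adjoin_precomp {X Y : Type*} {S : Set (X → k)} {O' : Subalgebra k (Y → k)} (φ : Y → X)
    (h : ∀ f ∈ S, (fun y => f (φ y)) ∈ O') :
    ∀ f ∈ Algebra.adjoin k S, (fun y => f (φ y)) ∈ O' := by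
  intro f hf
  refine Algebra.adjoin_induction (p := fun f _ => (fun y => f (φ y)) ∈ O') ?_ ?_ ?_ ?_ hf
  · exact fun f hf => h f hf
  · intro r
    exact O'.algebraMap_mem r
  · intro f g _ _ h1 h2
    exact O'.add_mem h1 h2
  · intro f g _ _ h1 h2
    exact O'.mul_mem h1 h2

theorem entries_inv {X : Type*} (e : X → GL (Fin N) k) {O : Subalgebra k (X → k)}
    (h : entries e ⊆ O) : entries (fun x => (e x)⁻¹) ⊆ O := by
  rintro f ⟨a, b, rfl | rfl⟩
  · exact h ⟨a, b, Or.inr rfl⟩
  · refine h ⟨a, b, Or.inl ?_⟩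
    simp

theorem entries_mul {X : Type*} (e e' : X → GL (Fin N) k) {O : Subalgebra k (X → k)}
    (h : entries e ⊆ O) (h' : entries e' ⊆ O) : entries (fun x => e x * e' x) ⊆ O := by
  rintro f ⟨a, b, rfl | rfl⟩
  · have : (fun x => ((e x * e' x : GL (Fin N) k) : Matrix (Fin N) (Fin N) k) a b) =
        ∑ c, (fun x => (e x : Matrix (Fin N) (Fin N) k) a c) *
          fun x => (e' x : Matrix (Fin N) (Fin N) k) c b := by
      funext x
      rw [Finset.sum_apply]
      exact Matrix.mul_apply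
    rw [this]
    exact O.sum_mem fun c _ => O.mul_mem (h ⟨a, c, Or.inl rfl⟩) (h' ⟨c, b, Or.inl rfl⟩)
  · have : (fun x => ((e x * e' x)⁻¹ : GL (Fin N) k) a b) =
        ∑ c, (fun x => ((e' x)⁻¹ : GL (Fin N) k) a c) *
          fun x => ((e x)⁻¹ : GL (Fin N) k) c b := by
      funext x
      rw [Finset.sum_apply, mul_inv_rev]
      exact Matrix.mul_apply
    rw [this]
    exact O.sum_mem fun c _ => O.mul_mem (h' ⟨a, c, Or.inr rfl⟩) (h ⟨c, b, Or.inr rfl⟩)

theorem regStr (G : Subgroup (GL (Fin N) k)) (P : Subgroup G) :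
    RegStr P (regFns G P) (Algebra.adjoin k (entries (fun g : G => (g : GL (Fin N) k))))
      (Algebra.adjoin k (entries (fun x : P => ((x : G) : GL (Fin N) k)))) := by
  have hfst : ∀ j, entries (fun z : G × (Fin j → P) => (z.1 : GL (Fin N) k)) ⊆ regFns G P j :=
    fun j => Set.subset_union_left.trans Algebra.subset_adjoin
  have hsnd : ∀ j, ∀ i : Fin j, entries (fun z : G × (Fin j → P) =>
      ((z.2 i : G) : GL (Fin N) k)) ⊆ regFns G P j :=
    fun j i f hf => Algebra.subset_adjoin (Or.inr (Set.mem_iUnion.2 ⟨i, hf⟩))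
  refine ⟨?_, ?_, ?_, ?_, ?_, ?_, ?_⟩
  · refine adjoin_precomp (fun g : G => g⁻¹) ?_
    rintro f ⟨a, b, h⟩
    refine entries_inv (fun g : G => (g : GL (Fin N) k)) (O := Algebra.adjoin k
      (entries (fun g : G => (g : GL (Fin N) k)))) Algebra.subset_adjoin ⟨a, b, ?_⟩
    rcases h with rfl | rfl
    · exact Or.inl rfl
    · exact Or.inr rfl
  · intro j
    refine adjoin_precomp (fun z : G × (Fin j → P) => z.1) ?_
    rintro f ⟨a, b, h⟩
    refine hfst j ⟨a, b, ?_⟩
    rcases h with rfl | rfl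
    · exact Or.inl rfl
    · exact Or.inr rfl
  · refine adjoin_precomp (fun x : P => (x : G)) ?_
    rintro f ⟨a, b, h⟩
    refine Algebra.subset_adjoin ⟨a, b, ?_⟩
    rcases h with rfl | rfl
    · exact Or.inl rfl
    · exact Or.inr rfl
  · refine adjoin_precomp (fun x : P => x⁻¹) ?_
    rintro f ⟨a, b, h⟩
    refine entries_inv (fun x : P => ((x : G) : GL (Fin N) k)) (O := Algebra.adjoin k
      (entries (fun x : P => ((x : G) : GL (Fin N) k)))) Algebra.subset_adjoin ⟨a, b, ?_⟩
    rcases h with rfl | rfl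
    · exact Or.inl rfl
    · exact Or.inr rfl
  · intro j
    refine adjoin_precomp (fun z : G × (Fin (j + 1) → P) => z.2 0) ?_
    rintro f ⟨a, b, h⟩
    refine hsnd (j + 1) 0 ⟨a, b, ?_⟩
    rcases h with rfl | rfl
    · exact Or.inl rfl
    · exact Or.inr rfl
  · intro j
    refine adjoin_precomp (fun z : G × (Fin (j + 1) → P) =>
      ((z.1 * (z.2 0 : G), Fin.tail z.2) : G × (Fin j → P))) ?_
    rintro f (⟨a, b, h⟩ | hf)
    · refine entries_mul (fun z : G × (Fin (j + 1) → P) => (z.1 : GL (Fin N) k))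
        (fun z => ((z.2 0 : G) : GL (Fin N) k)) (hfst (j + 1)) (hsnd (j + 1) 0) ⟨a, b, ?_⟩
      rcases h with rfl | rfl
      · exact Or.inl rfl
      · exact Or.inr rfl
    · obtain ⟨i, a, b, h⟩ := Set.mem_iUnion.1 hf
      refine hsnd (j + 1) i.succ ⟨a, b, ?_⟩
      rcases h with rfl | rfl
      · exact Or.inl rfl
      · exact Or.inr rfl
  · intro j l
    refine adjoin_precomp (fun z : G × (Fin (j + 1) → P) =>
      ((z.1, Fin.contractNth l (· * ·) z.2) : G × (Fin j → P))) ?_
    rintro f (⟨a, b, h⟩ | hf)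
    · refine hfst (j + 1) ⟨a, b, ?_⟩
      rcases h with rfl | rfl
      · exact Or.inl rfl
      · exact Or.inr rfl
    · obtain ⟨i, a, b, h⟩ := Set.mem_iUnion.1 hf
      have hc : entries (fun z : G × (Fin (j + 1) → P) =>
          (((Fin.contractNth l (· * ·) z.2 i : P) : G) : GL (Fin N) k)) ⊆ regFns G P (j + 1) := by
        rcases lt_trichotomy (i : ℕ) (l : ℕ) with h1 | h1 | h1
        · simp only [Fin.contractNth_apply_of_lt _ _ _ _ h1]
          exact hsnd (j + 1) i.castSucc
        · simp only [Fin.contractNth_apply_of_eq _ _ _ _ h1]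
          exact entries_mul (fun z : G × (Fin (j + 1) → P) =>
            ((z.2 i.castSucc : G) : GL (Fin N) k)) (fun z => ((z.2 i.succ : G) : GL (Fin N) k))
            (hsnd (j + 1) _) (hsnd (j + 1) _)
        · simp only [Fin.contractNth_apply_of_gt _ _ _ _ h1]
          exact hsnd (j + 1) i.succ
      refine hc ⟨a, b, ?_⟩
      rcases h with rfl | rfl
      · exact Or.inl rfl
      · exact Or.inr rfl

theorem ratRep_conj {H : Type*} [Group H] (e : H →* GL (Fin N) k)
    (V : Submodule k (Matrix (Fin N) (Fin N) k))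
    (hV : ∀ h, ∀ X ∈ V, (e h : Matrix (Fin N) (Fin N) k) * X * ((e h)⁻¹ : GL (Fin N) k) ∈ V) :
    RatRep (Algebra.adjoin k (entries (fun h : H => e h))) (conjRep e V hV) := by
  intro l v
  obtain ⟨l', hl'⟩ := LinearMap.exists_extend l
  obtain ⟨A, hA⟩ : ∃ A : H → Matrix (Fin N) (Fin N) k, ∀ h, A h = (e h).1 := ⟨_, fun _ => rfl⟩
  obtain ⟨B, hB⟩ : ∃ B : H → Matrix (Fin N) (Fin N) k, ∀ h, B h = ((e h)⁻¹).1 := ⟨_, fun _ => rfl⟩
  obtain ⟨W, hW⟩ : ∃ W : Matrix (Fin N) (Fin N) k, W = v := ⟨_, rfl⟩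
  have h1 : (fun h => l (conjRep e V hV h v)) = ∑ a, ∑ b, ∑ c, ∑ d,
      W c d • l' (Matrix.single a b 1) • ((fun h => A h a c) * fun h => B h d b) := by
    funext h
    have h2 : l (conjRep e V hV h v) = l' (A h * W * B h) := by
      rw [← hl', hA, hB, hW]
      rfl
    rw [h2]
    conv_lhs => rw [Matrix.matrix_eq_sum_single (A h * W * B h)]
    simp only [map_sum, Finset.sum_apply]
    refine Finset.sum_congr rfl fun a _ => Finset.sum_congr rfl fun b _ => ?_
    have h3 : Matrix.single a b ((A h * W * B h) a b) =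
        ((A h * W * B h) a b) • Matrix.single a b (1 : k) := by
      rw [Matrix.smul_single, smul_eq_mul, mul_one]
    rw [h3, map_smul, Matrix.mul_apply, smul_eq_mul, Finset.sum_mul]
    simp only [Matrix.mul_apply, Finset.sum_mul]
    rw [Finset.sum_comm]
    refine Finset.sum_congr rfl fun c _ => Finset.sum_congr rfl fun d _ => ?_
    simp only [Pi.smul_apply, Pi.mul_apply, smul_eq_mul]
    ring
  rw [h1]
  refine Subalgebra.sum_mem _ fun a _ => Subalgebra.sum_mem _ fun b _ =>
    Subalgebra.sum_mem _ fun c _ => Subalgebra.sum_mem _ fun d _ => ?_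
  refine Subalgebra.smul_mem _ (Subalgebra.smul_mem _ (Subalgebra.mul_mem _ ?_ ?_) _) _
  · refine Algebra.subset_adjoin ⟨a, c, Or.inl ?_⟩
    funext h
    rw [hA]
  · refine Algebra.subset_adjoin ⟨d, b, Or.inr ?_⟩
    funext h
    rw [hB]

/-- the tangent vector `1 + ε X` -/
def dualPt (X : Matrix (Fin N) (Fin N) k) (p : Fin N × Fin N) : DualNumber k :=
  TrivSqZeroExt.inl ((1 : Matrix (Fin N) (Fin N) k) p.1 p.2) + TrivSqZeroExt.inr (X p.1 p.2)

theorem aeval_dualPt (X : Matrix (Fin N) (Fin N) k) (f : MvPolynomial (Fin N × Fin N) k) :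
    MvPolynomial.aeval (dualPt X) f =
      TrivSqZeroExt.inl (MvPolynomial.eval
        (fun p => (1 : Matrix (Fin N) (Fin N) k) p.1 p.2) f) +
      TrivSqZeroExt.inr (∑ p : Fin N × Fin N, X p.1 p.2 *
        MvPolynomial.eval (fun p => (1 : Matrix (Fin N) (Fin N) k) p.1 p.2)
          (MvPolynomial.pderiv p f)) := by
  set I : Fin N × Fin N → k := fun p => (1 : Matrix (Fin N) (Fin N) k) p.1 p.2 with hI
  set Y : Fin N × Fin N → k := fun p => X p.1 p.2 with hY
  have hd : ∀ p, dualPt X p = TrivSqZeroExt.inl (I p) + TrivSqZeroExt.inr (Y p) := fun _ => rfl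
  show MvPolynomial.aeval (dualPt X) f = TrivSqZeroExt.inl (MvPolynomial.eval I f) +
    TrivSqZeroExt.inr (∑ p, Y p * MvPolynomial.eval I (MvPolynomial.pderiv p f))
  generalize dualPt X = D at hd
  clear_value I Y
  induction f using MvPolynomial.induction_on with
  | C r =>
    rw [MvPolynomial.aeval_C, MvPolynomial.eval_C]
    simp only [MvPolynomial.pderiv_C, map_zero, mul_zero, Finset.sum_const_zero,
      TrivSqZeroExt.inr_zero, add_zero]
    rfl
  | add f g hf hg =>
    rw [map_add, hf, hg]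
    ext
    · simp
    · simp [mul_add, Finset.sum_add_distrib]
  | mul_X f q hf =>
    rw [map_mul, hf, MvPolynomial.aeval_X, hd]
    have h1 : ∑ p, Y p * MvPolynomial.eval I (MvPolynomial.pderiv p (f * MvPolynomial.X q)) =
        MvPolynomial.eval I f * Y q +
          (∑ p, Y p * MvPolynomial.eval I (MvPolynomial.pderiv p f)) * I q := by
      have h2 : ∀ p, Y p * MvPolynomial.eval I (MvPolynomial.pderiv p (f * MvPolynomial.X q)) =
          MvPolynomial.eval I f * (Y p * MvPolynomial.eval I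
            (MvPolynomial.pderiv p (MvPolynomial.X q))) +
            Y p * MvPolynomial.eval I (MvPolynomial.pderiv p f) * I q := by
        intro p
        rw [Derivation.leibniz]
        simp only [smul_eq_mul, map_add, map_mul, MvPolynomial.eval_X]
        ring
      rw [Finset.sum_congr rfl fun p _ => h2 p, Finset.sum_add_distrib, ← Finset.mul_sum,
        ← Finset.sum_mul]
      congr 2
      rw [Finset.sum_eq_single q]
      · rw [MvPolynomial.pderiv_X_self, map_one, mul_one]
      · intro p _ hp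
        rw [MvPolynomial.pderiv_X_of_ne (Ne.symm hp), map_zero, mul_zero]
      · simp
    rw [h1]
    ext
    · simp
    · simp [mul_comm, add_comm]

theorem mem_lieAlg {H : Subgroup (GL (Fin N) k)} {X : Matrix (Fin N) (Fin N) k} :
    X ∈ lieAlg H ↔ ∀ f : MvPolynomial (Fin N × Fin N) k,
      (∀ h ∈ H, MvPolynomial.eval (fun p => (h : Matrix (Fin N) (Fin N) k) p.1 p.2) f = 0) →
      MvPolynomial.aeval (dualPt X) f = 0 := by
  refine forall_congr' fun f => forall_congr' fun hf => ?_
  rw [aeval_dualPt]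
  have h1 : MvPolynomial.eval (fun p : Fin N × Fin N =>
      (1 : Matrix (Fin N) (Fin N) k) p.1 p.2) f = 0 := hf 1 H.one_mem
  rw [h1]
  constructor
  · intro h
    rw [h]
    simp
  · intro h
    have := congrArg TrivSqZeroExt.snd h
    simpa using this

theorem lieAlg_mono {H H' : Subgroup (GL (Fin N) k)} (h : H ≤ H') : lieAlg H ≤ lieAlg H' :=
  fun _ hX f hf => hX f fun x hx => hf x (h hx)

theorem lieAlg_conj {H : Subgroup (GL (Fin N) k)} (x : GL (Fin N) k)
    (hx : ∀ h ∈ H, x * h * x⁻¹ ∈ H) {X : Matrix (Fin N) (Fin N) k} (hX : X ∈ lieAlg H) :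
    (x : Matrix (Fin N) (Fin N) k) * X * ((x⁻¹ : GL (Fin N) k) : Matrix (Fin N) (Fin N) k) ∈
      lieAlg H := by
  rw [mem_lieAlg] at hX ⊢
  intro f hf
  -- the polynomial `f (x · x⁻¹)`
  let c : Fin N × Fin N → MvPolynomial (Fin N × Fin N) k := fun p =>
    ∑ a, ∑ b, MvPolynomial.C ((x : Matrix (Fin N) (Fin N) k) p.1 a) * MvPolynomial.X (a, b) *
      MvPolynomial.C (((x⁻¹ : GL (Fin N) k) : Matrix (Fin N) (Fin N) k) b p.2)
  have hdbl : ∀ (M : Matrix (Fin N) (Fin N) k) (p : Fin N × Fin N),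
      ∑ a, ∑ b, (x : Matrix (Fin N) (Fin N) k) p.1 a * M a b *
        ((x⁻¹ : GL (Fin N) k) : Matrix (Fin N) (Fin N) k) b p.2 =
      ((x : Matrix (Fin N) (Fin N) k) * M *
        ((x⁻¹ : GL (Fin N) k) : Matrix (Fin N) (Fin N) k)) p.1 p.2 := by
    intro M p
    rw [Matrix.mul_apply, Finset.sum_comm]
    refine Finset.sum_congr rfl fun b _ => ?_
    rw [Matrix.mul_apply, Finset.sum_mul]
  have h1 := hX (MvPolynomial.bind₁ c f) (by
    intro h hh
    have h2 := hf _ (hx h hh)
    rw [MvPolynomial.eval, MvPolynomial.eval₂Hom_bind₁]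
    rw [MvPolynomial.eval] at h2
    convert h2 using 3
    funext p
    have h3 := hdbl (h : Matrix (Fin N) (Fin N) k) p
    simp only [c, map_sum, map_mul, MvPolynomial.coe_eval₂Hom, MvPolynomial.eval₂_C,
      MvPolynomial.eval₂_X, RingHom.id_apply]
    rw [h3]
    rfl)
  rw [MvPolynomial.aeval_bind₁] at h1
  convert h1 using 3
  funext p
  have h3 := hdbl 1 p
  have h4 := hdbl X p
  simp only [c, map_sum, map_mul, MvPolynomial.aeval_C, MvPolynomial.aeval_X]
  have h5 : ((x : Matrix (Fin N) (Fin N) k) * 1 *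
      ((x⁻¹ : GL (Fin N) k) : Matrix (Fin N) (Fin N) k)) = 1 := by
    rw [mul_one]
    exact x.mul_inv
  rw [h5] at h3
  rw [dualPt, ← h3, ← h4]
  ext
  · simp only [dualPt, TrivSqZeroExt.fst_add, TrivSqZeroExt.fst_inl, TrivSqZeroExt.fst_inr,
      add_zero, TrivSqZeroExt.fst_sum, TrivSqZeroExt.fst_mul]
    rfl
  · simp only [dualPt, TrivSqZeroExt.snd_add, TrivSqZeroExt.snd_inl, TrivSqZeroExt.snd_inr,
      zero_add, TrivSqZeroExt.snd_sum, TrivSqZeroExt.snd_mul]
    refine Finset.sum_congr rfl fun a _ => Finset.sum_congr rfl fun b _ => ?_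
    have h6 : ∀ r : k, TrivSqZeroExt.snd ((algebraMap k (DualNumber k)) r) = 0 := fun r => rfl
    have h7 : ∀ r : k, TrivSqZeroExt.fst ((algebraMap k (DualNumber k)) r) = r := fun r => rfl
    simp only [h6, h7, TrivSqZeroExt.fst_add, TrivSqZeroExt.fst_inl, TrivSqZeroExt.fst_inr,
      add_zero, smul_zero, zero_add, smul_eq_mul, MulOpposite.smul_eq_mul_unop,
      MulOpposite.unop_op, mul_zero]

end

end Pool.Agent.KosInd
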