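import Pool.Agent.Lib.MP_69ab1c_al_ko.Ses
import Pool.Agent.Lib.MP_69ab1c_al_ko.Koszul

/-!
Rational representations on polynomial functions and alternating forms.
-/

namespace Pool.Agent.KosInd

open Submodule

universe u

/-- The action of `H` on the functions on an `H`-module `E`. -/
def funRep {k : Type*} [Field k] {H : Type*} [Group H] {E : Type*} [AddCommGroup E] [Module k E]
    (τ : Representation k H E) : Representation k H (E → k) where
  toFun x :=
    { toFun := fun f X => f (τ x⁻¹ X)
      map_add' := fun _ _ => rfl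
      map_smul' := fun _ _ => rfl }
  map_one' := by
    ext f X
    simp
  map_mul' x y := by
    ext f X
    simp

/-- The action of `H` on the alternating forms on an `H`-module `V`. -/
def altRep {k : Type*} [Field k] {H : Type*} [Group H] {V : Type*} [AddCommGroup V] [Module k V]
    (τ : Representation k H V) (b : ℕ) : Representation k H (V [⋀^Fin b]→ₗ[k] k) where
  toFun x :=
    { toFun := fun ω => ω.compLinearMap (τ x⁻¹)
      map_add' := fun _ _ => rfl
      map_smul' := fun _ _ => rfl }
  map_one' := by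
    ext ω X
    simp
  map_mul' x y := by
    ext ω X
    simp

/-- The action of `H` on the functions on `V` with values in alternating forms. -/
def kosRep {k : Type*} [Field k] {H : Type*} [Group H] {V : Type*} [AddCommGroup V] [Module k V]
    (τ : Representation k H V) (b : ℕ) : Representation k H (V → (V [⋀^Fin b]→ₗ[k] k)) where
  toFun x :=
    { toFun := fun Φ X => (Φ (τ x⁻¹ X)).compLinearMap (τ x⁻¹)
      map_add' := fun _ _ => rfl
      map_smul' := fun _ _ => rfl }
  map_one' := by
    ext Φ X v
    simp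
  map_mul' x y := by
    ext Φ X v
    simp

section interp

variable {k : Type*} [Field k] {E : Type*}

theorem exists_interp (S : Submodule k (E → k)) [FiniteDimensional k S] :
    ∃ (s : Finset E) (f : s → E → k), (∀ l, f l ∈ S) ∧
      ∀ g ∈ S, g = ∑ l : s, g l • f l := by
  classical
  -- a finite set of points which separates `S`
  let K : Finset E → Submodule k S := fun s =>
    ⨅ e ∈ s, LinearMap.ker ((LinearMap.proj e : (E → k) →ₗ[k] k) ∘ₗ S.subtype)
  obtain ⟨_, ⟨s, rfl⟩, hs⟩ := WellFounded.has_min (wellFounded_lt : WellFounded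
    (fun a b : Submodule k S => a < b)) (Set.range K) ⟨_, ∅, rfl⟩
  have hK : ∀ t : Finset E, ∀ g : S, g ∈ K t ↔ ∀ e ∈ t, (g : E → k) e = 0 := by
    intro t g
    simp [K, Submodule.mem_iInf]
  have hbot : K s = ⊥ := by
    rw [eq_bot_iff]
    intro g hg
    rw [mem_bot]
    ext e
    by_contra he
    refine hs (K (insert e s)) ⟨_, rfl⟩ (lt_of_le_of_ne ?_ ?_)
    · intro g' hg'
      rw [hK] at hg' ⊢
      exact fun e' he' => hg' e' (Finset.mem_insert_of_mem he')
    · intro h
      rw [← h, hK] at hg
      exact he (hg e (Finset.mem_insert_self _ _))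
  let R : S →ₗ[k] (s → k) := LinearMap.pi fun l =>
    (LinearMap.proj (l : E) : (E → k) →ₗ[k] k) ∘ₗ S.subtype
  have hR : LinearMap.ker R = ⊥ := by
    rw [eq_bot_iff, ← hbot]
    intro g hg
    rw [hK]
    intro e he
    exact congrFun (LinearMap.mem_ker.1 hg) ⟨e, he⟩
  obtain ⟨L, hL⟩ := LinearMap.exists_leftInverse_of_injective R hR
  refine ⟨s, fun l => (L (Pi.single l 1) : E → k), fun l => (L _).2, fun g hg => ?_⟩
  have h1 := LinearMap.congr_fun hL ⟨g, hg⟩
  rw [LinearMap.comp_apply, LinearMap.id_apply] at h1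
  have h2 : R ⟨g, hg⟩ = ∑ l : s, g l • (Pi.single l 1 : s → k) := by
    funext l
    rw [Finset.sum_apply, Finset.sum_eq_single l]
    · simp [R]
    · intro m _ hm
      simp [Ne.symm hm]
    · simp
  rw [h2, map_sum] at h1
  have h3 := congrArg (S.subtype) h1
  rw [map_sum] at h3
  simp only [map_smul, coe_subtype] at h3
  exact h3.symm

theorem regMaps_of_pointwise {X : Type*} {O : Subalgebra k (X → k)} {A : Type*}
    [AddCommGroup A] [Module k A] (j : A →ₗ[k] (E → k)) (hj : Function.Injective j)
    {S : Submodule k A} [FiniteDimensional k S] {c : X → A} (hc : ∀ z, c z ∈ S)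
    (h : ∀ e, (fun z => j (c z) e) ∈ O) : c ∈ regMaps O S := by
  have : FiniteDimensional k (S.map j) := inferInstance
  obtain ⟨s, f, hf, hg⟩ := exists_interp (S.map j)
  have h1 : (fun z => j (c z)) ∈ regMaps O (S.map j) := by
    have h2 : (fun z => j (c z)) = ∑ l : s, fun z => (j (c z) l) • f l := by
      funext z
      rw [Finset.sum_apply]
      exact hg _ (mem_map_of_mem (hc z))
    rw [h2]
    exact sum_mem fun l _ => smul_mem_regMaps (h l) (hf l)
  obtain ⟨b, hb, hbc⟩ := regMaps_lift j h1
  have : b = c := funext fun z => hj (congrFun hbc z)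
  exact this ▸ hb

end interp

section fin

variable {k : Type*} [Field k] {E : Type*} [AddCommGroup E] [Module k E] [FiniteDimensional k E]

instance symDual_finite (a : ℕ) : FiniteDimensional k (symDual k E a) := by
  induction a with
  | zero =>
    have h : symDual k E 0 ≤ span k {fun _ => (1 : k)} := by
      intro f hf
      obtain ⟨c, rfl⟩ := symDual_zero_eq hf
      rw [mem_span_singleton]
      exact ⟨c, by funext X; simp⟩
    exact Submodule.finiteDimensional_of_le h
  | succ a ih =>
    let L : Module.Dual k E →ₗ[k] (E → k) :=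
      { toFun := fun l X => l X
        map_add' := fun _ _ => rfl
        map_smul' := fun _ _ => rfl }
    have h : symDual k E (a + 1) ≤
        Submodule.map₂ (LinearMap.mul k (E → k)) (LinearMap.range L) (symDual k E a) := by
      intro f hf
      refine symDual_succ_induction (p := fun f => f ∈ Submodule.map₂ (LinearMap.mul k (E → k))
        (LinearMap.range L) (symDual k E a)) (zero_mem _) (fun _ _ => add_mem)
        (fun r _ => smul_mem _ r) ?_ hf
      intro l f hf
      exact Submodule.apply_mem_map₂ (LinearMap.mul k (E → k)) ⟨l, rfl⟩ hf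
    have h2 : (Submodule.map₂ (LinearMap.mul k (E → k)) (LinearMap.range L)
        (symDual k E a)).FG :=
      Submodule.FG.map₂ _ (Module.Finite.iff_fg.1 inferInstance) (Module.Finite.iff_fg.1 ih)
    have := Module.Finite.iff_fg.2 h2
    exact Submodule.finiteDimensional_of_le h

instance alt_finite (b : ℕ) : FiniteDimensional k (E [⋀^Fin b]→ₗ[k] k) := by
  let j : (E [⋀^Fin b]→ₗ[k] k) →ₗ[k] MultilinearMap k (fun _ : Fin b => E) k :=
    { toFun := fun ω => ω.toMultilinearMap
      map_add' := fun _ _ => rfl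
      map_smul' := fun _ _ => rfl }
  exact FiniteDimensional.of_injective j AlternatingMap.coe_multilinearMap_injective

end fin

section rat

variable {k : Type*} [Field k] {H : Type*} [Group H] {OH : Subalgebra k (H → k)}
  {E : Type*} [AddCommGroup E] [Module k E] {τ : Representation k H E}

/-- matrix coefficients are regular -/
def RatRep {k : Type*} [Field k] {H : Type*} [Group H] (OH : Subalgebra k (H → k))
    {E : Type*} [AddCommGroup E] [Module k E] (τ : Representation k H E) : Prop :=
  ∀ (l : Module.Dual k E) (v : E), (fun x => l (τ x v)) ∈ OH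

theorem symDual_point (hinv : ∀ f ∈ OH, (fun x => f x⁻¹) ∈ OH) (hτ : RatRep OH τ) {a : ℕ}
    {f : E → k} (hf : f ∈ symDual k E a) (X : E) : (fun x => f (τ x⁻¹ X)) ∈ OH := by
  refine span_induction (p := fun f _ => (fun x => f (τ x⁻¹ X)) ∈ OH) ?_ ?_ ?_ ?_ hf
  · rintro _ ⟨l, rfl⟩
    have : (fun x => ∏ i, l i (τ x⁻¹ X)) = ∏ i, fun x => l i (τ x⁻¹ X) := by
      funext x
      rw [Finset.prod_apply]
    rw [this]
    exact OH.prod_mem fun i _ => hinv _ (hτ (l i) X)
  · exact OH.zero_mem
  · intro f g _ _ hf hg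
    exact OH.add_mem hf hg
  · intro r f _ hf
    exact OH.smul_mem hf r

theorem alt_point [FiniteDimensional k E] (hinv : ∀ f ∈ OH, (fun x => f x⁻¹) ∈ OH) (hτ : RatRep OH τ) {b : ℕ}
    (ω : E [⋀^Fin b]→ₗ[k] k) (v : Fin b → E) : (fun x => ω (fun i => τ x⁻¹ (v i))) ∈ OH := by
  classical
  let e := Module.finBasis k E
  have h : (fun x => ω (fun i => τ x⁻¹ (v i))) =
      ∑ r : Fin b → Fin (Module.finrank k E), (fun x =>
        (∏ i, e.coord (r i) (τ x⁻¹ (v i))) * ω (fun i => e (r i))) := by
    funext x
    rw [Finset.sum_apply]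
    have h1 : (fun i => τ x⁻¹ (v i)) = fun i => ∑ j, e.coord j (τ x⁻¹ (v i)) • e j := by
      funext i
      exact (e.sum_repr _).symm
    rw [h1]
    have h2 := ω.toMultilinearMap.map_sum (fun i j => e.coord j (τ x⁻¹ (v i)) • e j)
    rw [AlternatingMap.coe_multilinearMap] at h2
    rw [h2]
    refine Finset.sum_congr rfl fun r _ => ?_
    have h3 := ω.toMultilinearMap.map_smul_univ (fun i => e.coord (r i) (τ x⁻¹ (v i)))
      (fun i => e (r i))
    rw [AlternatingMap.coe_multilinearMap] at h3
    rw [h3, smul_eq_mul]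
  rw [h]
  refine OH.sum_mem fun r _ => ?_
  have h4 : (fun x => (∏ i, e.coord (r i) (τ x⁻¹ (v i))) * ω (fun i => e (r i))) =
      (ω (fun i => e (r i))) • ∏ i, fun x => e.coord (r i) (τ x⁻¹ (v i)) := by
    funext x
    simp [Finset.prod_apply, mul_comm]
  rw [h4]
  exact OH.smul_mem (OH.prod_mem fun i _ => hinv _ (hτ _ _)) _

theorem rat_symDual [FiniteDimensional k E] (hinv : ∀ f ∈ OH, (fun x => f x⁻¹) ∈ OH) (hτ : RatRep OH τ) (a : ℕ) :
    Rat OH (funRep τ) (symDual k E a) := by
  intro f hf
  refine regMaps_of_pointwise (E := E) LinearMap.id (fun _ _ h => h) (fun x => ?_) ?_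
  · exact symDual_comp (τ x⁻¹) hf
  · exact fun X => symDual_point hinv hτ hf X

theorem altRep_mem {n : Submodule k E} (hn : ∀ x, ∀ v ∈ n, τ x v ∈ n) {b : ℕ}
    {ω : E [⋀^Fin b]→ₗ[k] k} (hω : ω ∈ altVan n b) (x : H) : altRep τ b x ω ∈ altVan n b := by
  rintro v ⟨i, hi⟩
  exact hω _ ⟨i, hn _ _ hi⟩

theorem rat_altVan [FiniteDimensional k E] (hinv : ∀ f ∈ OH, (fun x => f x⁻¹) ∈ OH) (hτ : RatRep OH τ)
    {n : Submodule k E} (hn : ∀ x, ∀ v ∈ n, τ x v ∈ n) (b : ℕ) :
    Rat OH (altRep τ b) (altVan n b) := by
  intro ω hω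
  refine regMaps_of_pointwise (E := Fin b → E)
    { toFun := fun ω v => ω v
      map_add' := fun _ _ => rfl
      map_smul' := fun _ _ => rfl } (fun _ _ h => DFunLike.coe_injective h)
    (fun x => altRep_mem hn hω x) ?_
  exact fun v => alt_point hinv hτ ω v

theorem regMaps_tensor {X : Type*} {O : Subalgebra k (X → k)} {n : Submodule k E} {a b : ℕ}
    {c : X → E → k} (hc : c ∈ regMaps O (symDual k E a)) {d : X → E [⋀^Fin b]→ₗ[k] k}
    (hd : d ∈ regMaps O (altVan n b)) : (fun x => fun X => c x X • d x) ∈
      regMaps O (kos n a b) := by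
  refine span_induction (p := fun c _ => (fun x => fun X => c x X • d x) ∈
    regMaps O (kos n a b)) ?_ ?_ ?_ ?_ hc
  · rintro _ ⟨g, hg, f, hf, rfl⟩
    refine span_induction (p := fun d _ => (fun x => fun X => (g x • f) X • d x) ∈
      regMaps O (kos n a b)) ?_ ?_ ?_ ?_ hd
    · rintro _ ⟨g', hg', ω, hω, rfl⟩
      have : (fun x => fun X => (g x • f) X • (g' x • ω)) =
          fun x => (g * g') x • (fun X => f X • ω) := by
        funext x X
        ext v
        simp only [Pi.smul_apply, AlternatingMap.smul_apply, smul_eq_mul, Pi.mul_apply]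
        ring
      rw [this]
      exact smul_mem_regMaps (O.mul_mem hg hg') (subset_span ⟨f, hf, ω, hω, rfl⟩)
    · simp only [Pi.zero_apply, smul_zero]
      exact zero_mem _
    · intro d d' _ _ h h'
      simp only [Pi.add_apply, smul_add]
      exact add_mem h h'
    · intro r d _ h
      have : (fun x => fun X => (g x • f) X • (r • d) x) =
          r • fun x => fun X => (g x • f) X • d x := by
        funext x X
        ext v
        simp only [Pi.smul_apply, AlternatingMap.smul_apply, smul_eq_mul]
        ring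
      rw [this]
      exact smul_mem _ r h
  · simp only [Pi.zero_apply, zero_smul]
    exact zero_mem _
  · intro c c' _ _ h h'
    simp only [Pi.add_apply, add_smul]
    exact add_mem h h'
  · intro r c _ h
    have : (fun x => fun X => (r • c) x X • d x) = r • fun x => fun X => c x X • d x := by
      funext x X
      ext v
      simp only [Pi.smul_apply, AlternatingMap.smul_apply, smul_eq_mul]
      ring
    rw [this]
    exact smul_mem _ r h

theorem rat_kos [FiniteDimensional k E] (hinv : ∀ f ∈ OH, (fun x => f x⁻¹) ∈ OH) (hτ : RatRep OH τ)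
    {n : Submodule k E} (hn : ∀ x, ∀ v ∈ n, τ x v ∈ n) (a b : ℕ) :
    Rat OH (kosRep τ b) (kos n a b) := by
  intro Φ hΦ
  refine span_induction (p := fun Φ _ => (fun x => kosRep τ b x Φ) ∈ regMaps OH (kos n a b))
    ?_ ?_ ?_ ?_ hΦ
  · rintro _ ⟨f, hf, ω, hω, rfl⟩
    have h1 := rat_symDual hinv hτ a f hf
    have h2 := rat_altVan hinv hτ hn b ω hω
    exact regMaps_tensor h1 h2
  · simp only [map_zero]
    exact zero_mem _
  · intro Φ Ψ _ _ h1 h2
    simp only [map_add]
    exact add_mem h1 h2
  · intro r Φ _ h1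
    simp only [map_smul]
    exact smul_mem _ r h1

end rat

end Pool.Agent.KosInd
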