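import Pool.Agent.Lib.MP_69ab1c_al_ko.Cochain

/-!
Short exact sequences of rational `P`-modules and the vanishing of `R^i Ind_P^G`.
-/

namespace Pool.Agent.KosInd

open Submodule

universe u

/-- The properties of the algebras of regular functions on `G × P^j`, `G` and `P` that are used. -/
structure RegStr {k : Type*} [Field k] {G : Type*} [Group G] (P : Subgroup G)
    (O : ∀ j, Subalgebra k (G × (Fin j → P) → k)) (OG : Subalgebra k (G → k))
    (OP : Subalgebra k (P → k)) : Prop where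
  inv : ∀ f ∈ OG, (fun g => f g⁻¹) ∈ OG
  fst : ∀ j, ∀ f ∈ OG, (fun z : G × (Fin j → P) => f z.1) ∈ O j
  res : ∀ f ∈ OG, (fun x : P => f x) ∈ OP
  invP : ∀ f ∈ OP, (fun x => f x⁻¹) ∈ OP
  snd0 : ∀ j, ∀ f ∈ OP, (fun z : G × (Fin (j + 1) → P) => f (z.2 0)) ∈ O (j + 1)
  face0 : ∀ j, ∀ f ∈ O j,
    (fun z : G × (Fin (j + 1) → P) => f (z.1 * (z.2 0 : G), Fin.tail z.2)) ∈ O (j + 1)
  face : ∀ j, ∀ i : Fin (j + 1), ∀ f ∈ O j,
    (fun z : G × (Fin (j + 1) → P) => f (z.1, Fin.contractNth i (· * ·) z.2)) ∈ O (j + 1)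

/-- The submodule `M` is stable under `P` and the action of `P` on it is rational. -/
def Rat {k : Type*} [Field k] {H : Type*} [Group H] (OP : Subalgebra k (H → k)) {A : Type*}
    [AddCommGroup A] [Module k A] (ρ : Representation k H A) (M : Submodule k A) : Prop :=
  ∀ v ∈ M, (fun x => ρ x v) ∈ regMaps OP M

section

variable {k : Type u} [Field k] {G : Type u} [Group G] {P : Subgroup G}
    {O : ∀ j, Subalgebra k (G × (Fin j → P) → k)} {OG : Subalgebra k (G → k)}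
    {OP : Subalgebra k (P → k)} {A : Type u}
    [AddCommGroup A] [Module k A] {ρ : Representation k P A} {A' : Type u}
    [AddCommGroup A'] [Module k A'] {ρ' : Representation k P A'}

theorem Rat.map {K : Submodule k A} (h : Rat OP ρ K) {q : A →ₗ[k] A'}
    (hq : ∀ x v, q (ρ x v) = ρ' x (q v)) : Rat OP ρ' (K.map q) := by
  rintro _ ⟨v, hv, rfl⟩
  simp only [← hq]
  exact regMaps_map q (h v hv)

theorem dHoch_mem (R : RegStr P O OG OP) {K : Submodule k A} (h : Rat OP ρ K) {j : ℕ}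
    {c : G × (Fin j → P) → A} (hc : c ∈ regMaps (O j) K) :
    dHoch P ρ j c ∈ regMaps (O (j + 1)) K := by
  have h1 : (fun z : G × (Fin (j + 1) → P) => ρ (z.2 0) (c (z.1 * (z.2 0 : G), Fin.tail z.2))) ∈
      regMaps (O (j + 1)) K := by
    refine span_induction (p := fun c _ => (fun z : G × (Fin (j + 1) → P) =>
      ρ (z.2 0) (c (z.1 * (z.2 0 : G), Fin.tail z.2))) ∈ regMaps (O (j + 1)) K) ?_ ?_ ?_ ?_ hc
    · rintro _ ⟨f, hf, v, hv, rfl⟩
      simp only [map_smul]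
      exact regMaps_smul (R.face0 j f hf) (regMaps_comp (fun z : G × (Fin (j + 1) → P) => z.2 0)
        (R.snd0 j) (h v hv))
    · simp only [Pi.zero_apply, map_zero]
      exact zero_mem _
    · intro a b _ _ ha hb
      simp only [Pi.add_apply, map_add]
      exact add_mem ha hb
    · intro r a _ ha
      simp only [Pi.smul_apply, map_smul]
      exact smul_mem _ r ha
  have h2 : ∀ i : Fin (j + 1), (fun z : G × (Fin (j + 1) → P) =>
      (-1 : k) ^ ((i : ℕ) + 1) • c (z.1, Fin.contractNth i (· * ·) z.2)) ∈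
      regMaps (O (j + 1)) K := fun i =>
    smul_mem _ ((-1 : k) ^ ((i : ℕ) + 1)) (regMaps_comp (fun z : G × (Fin (j + 1) → P) =>
      ((z.1, Fin.contractNth i (· * ·) z.2) : G × (Fin j → P))) (R.face j i) hc)
  have h3 : dHoch P ρ j c = (fun z : G × (Fin (j + 1) → P) =>
      ρ (z.2 0) (c (z.1 * (z.2 0 : G), Fin.tail z.2))) +
      ∑ i : Fin (j + 1), (fun z : G × (Fin (j + 1) → P) =>
        (-1 : k) ^ ((i : ℕ) + 1) • c (z.1, Fin.contractNth i (· * ·) z.2)) := by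
    funext z
    simp only [dHoch, Pi.add_apply, Finset.sum_apply]
  rw [h3]
  exact add_mem h1 (sum_mem fun i _ => h2 i)

theorem RZero_bot (i : ℕ) : RZero P ρ O ⊥ i := by
  intro c hc _
  refine ⟨0, zero_mem _, ?_⟩
  rw [dHoch_zero]
  funext z
  have := regMaps_apply hc z
  rw [mem_bot] at this
  exact this.symm

theorem RZero.left (R : RegStr P O OG OP) {K : Submodule k A} (h : Rat OP ρ K) {q : A →ₗ[k] A'}
    (hq : ∀ x v, q (ρ x v) = ρ' x (q v)) {i : ℕ} (h1 : RZero P ρ' O (K.map q) i)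
    (h2 : RZero P ρ O K (i + 1)) : RZero P ρ O (K ⊓ LinearMap.ker q) (i + 1) := by
  intro c hc hdc
  obtain ⟨b, hb, hbc⟩ := h2 c (regMaps_mono inf_le_left hc) hdc
  have hqc : ∀ z, q (c z) = 0 := fun z => (regMaps_apply hc z).2
  obtain ⟨w, hw, hwb⟩ := h1 _ (regMaps_map q hb) (by
    rw [dHoch_map P ρ ρ' hq, hbc]
    funext z
    exact hqc z)
  obtain ⟨w', hw', rfl⟩ := regMaps_lift q hw
  refine ⟨b - dHoch P ρ i w', regMaps_of_mem (sub_mem hb (dHoch_mem R h hw')) ?_, ?_⟩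
  · intro z
    refine ⟨sub_mem (regMaps_apply hb z) (regMaps_apply (dHoch_mem R h hw') z), ?_⟩
    rw [SetLike.mem_coe, LinearMap.mem_ker, Pi.sub_apply, map_sub]
    have := congrFun hwb z
    rw [dHoch_map P ρ ρ' hq] at this
    rw [sub_eq_zero]
    exact this.symm
  · rw [dHoch_sub, hbc, dHoch_dHoch, sub_zero]

theorem RZero.right (R : RegStr P O OG OP) {K : Submodule k A} (h : Rat OP ρ K) {q : A →ₗ[k] A'}
    (hq : ∀ x v, q (ρ x v) = ρ' x (q v)) {i : ℕ}
    (h1 : RZero P ρ O (K ⊓ LinearMap.ker q) (i + 1))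
    (h2 : RZero P ρ O K i) : RZero P ρ' O (K.map q) i := by
  intro c hc hdc
  obtain ⟨b, hb, rfl⟩ := regMaps_lift q hc
  have hq0 : ∀ z, q (dHoch P ρ (i + 1) b z) = 0 := by
    intro z
    have := congrFun hdc z
    rw [dHoch_map P ρ ρ' hq] at this
    exact this
  obtain ⟨z', hz', hz2⟩ := h1 (dHoch P ρ (i + 1) b) (regMaps_of_mem (dHoch_mem R h hb)
    fun z => ⟨regMaps_apply (dHoch_mem R h hb) z, hq0 z⟩) (dHoch_dHoch P ρ (i + 1) b)
  obtain ⟨y, hy, hyb⟩ := h2 (b - z') (sub_mem hb (regMaps_mono inf_le_left hz'))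
    (by rw [dHoch_sub, hz2, sub_self])
  refine ⟨fun z => q (y z), regMaps_map q hy, ?_⟩
  rw [dHoch_map P ρ ρ' hq, hyb]
  funext z
  rw [Pi.sub_apply, map_sub, show q (z' z) = 0 from (regMaps_apply hz' z).2, sub_zero]

theorem RZero.of_map (R : RegStr P O OG OP) {K : Submodule k A} (h : Rat OP ρ K)
    {q : A →ₗ[k] A'} (hq : ∀ x v, q (ρ x v) = ρ' x (q v)) {i : ℕ}
    (h0 : K ⊓ LinearMap.ker q = ⊥) (h1 : RZero P ρ' O (K.map q) i) : RZero P ρ O K i := by
  intro c hc hdc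
  obtain ⟨b, hb, hbc⟩ := h1 _ (regMaps_map q hc) (by
    rw [dHoch_map P ρ ρ' hq, hdc]
    funext z
    exact map_zero q)
  obtain ⟨b', hb', rfl⟩ := regMaps_lift q hb
  refine ⟨b', hb', ?_⟩
  funext z
  have h3 : c z - dHoch P ρ i b' z ∈ K ⊓ LinearMap.ker q := by
    refine ⟨sub_mem (regMaps_apply hc z) (regMaps_apply (dHoch_mem R h hb') z), ?_⟩
    rw [SetLike.mem_coe, LinearMap.mem_ker, map_sub]
    have := congrFun hbc z
    rw [dHoch_map P ρ ρ' hq] at this
    rw [sub_eq_zero]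
    exact this.symm
  rw [h0, mem_bot, sub_eq_zero] at h3
  exact h3.symm

theorem RZero.map (R : RegStr P O OG OP) {K : Submodule k A} (h : Rat OP ρ K)
    {q : A →ₗ[k] A'} (hq : ∀ x v, q (ρ x v) = ρ' x (q v)) {i : ℕ}
    (h0 : K ⊓ LinearMap.ker q = ⊥) (h1 : RZero P ρ O K i) : RZero P ρ' O (K.map q) i :=
  RZero.right R h hq (h0 ▸ RZero_bot (i + 1)) h1

end

end Pool.Agent.KosInd
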